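import Pool.Agent.H19.UG.Minor

/-!
Connectivity of vertex sets, complete minors, and the rooted triangle lemma.
-/

namespace Pool.Agent.H19.UG

open Relation

variable {V : Type*}

/-- `y` is reached from `x` by a walk all of whose vertices after the first one lie in `s`. -/
def R (G : SimpleGraph V) (s : Set V) : V → V → Prop :=
  ReflTransGen (fun a b => G.Adj a b ∧ b ∈ s)

/-- nonempty and connected vertex set -/
def Conn (G : SimpleGraph V) (s : Set V) : Prop := s.Nonempty ∧ ∀ x ∈ s, ∀ y ∈ s, R G s x y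

/-- the component of `x` inside `s` -/
def comp (G : SimpleGraph V) (s : Set V) (x : V) : Set V := {y | y ∈ s ∧ R G s x y}

/-- the outer neighbourhood -/
def nbr (G : SimpleGraph V) (A : Set V) : Set V := {v | v ∉ A ∧ ∃ a ∈ A, G.Adj a v}

variable {G : SimpleGraph V}

theorem R.mono {s t : Set V} (h : s ⊆ t) {x y : V} (hr : R G s x y) : R G t x y := by
  induction hr with
  | refl => exact ReflTransGen.refl
  | tail _ hbc ih => exact ReflTransGen.tail ih ⟨hbc.1, h hbc.2⟩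

theorem R.mem {s : Set V} {x y : V} (hx : x ∈ s) (hr : R G s x y) : y ∈ s := by
  induction hr with
  | refl => exact hx
  | tail _ hbc _ => exact hbc.2

theorem R.trans {s : Set V} {x y z : V} (h1 : R G s x y) (h2 : R G s y z) : R G s x z :=
  ReflTransGen.trans h1 h2

theorem R.symm {s : Set V} {x y : V} (hx : x ∈ s) (hr : R G s x y) : R G s y x := by
  induction hr with
  | refl => exact ReflTransGen.refl
  | @tail b c hab hbc ih =>
    have hb : b ∈ s := R.mem hx hab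
    exact ReflTransGen.head ⟨hbc.1.symm, hb⟩ ih

theorem R.single {s : Set V} {x y : V} (h : G.Adj x y) (hy : y ∈ s) : R G s x y :=
  ReflTransGen.single ⟨h, hy⟩

/-- the target stays in a set closed under steps inside `s` -/
theorem R.closed {s T : Set V} {x y : V} (hr : R G s x y) (hx : x ∈ T)
    (hT : ∀ a ∈ T, ∀ b ∈ s, G.Adj a b → b ∈ T) : y ∈ T := by
  induction hr with
  | refl => exact hx
  | tail _ hbc ih => exact hT _ ih _ hbc.2 hbc.1

/-- a walk inside `s` that starts in `T`, closed in `s`, is a walk inside `s ∩ T` -/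
theorem R.inter {s T : Set V} {x y : V} (hr : R G s x y) (hx : x ∈ T)
    (hT : ∀ a ∈ T, ∀ b ∈ s, G.Adj a b → b ∈ T) : R G (s ∩ T) x y := by
  induction hr with
  | refl => exact ReflTransGen.refl
  | @tail b c hab hbc ih =>
    have hb : b ∈ T := R.closed hab hx hT
    exact ReflTransGen.tail ih ⟨hbc.1, hbc.2, hT _ hb _ hbc.2 hbc.1⟩

theorem comp_subset (s : Set V) (x : V) : comp G s x ⊆ s := fun _ h => h.1

theorem mem_comp_self {s : Set V} {x : V} (hx : x ∈ s) : x ∈ comp G s x :=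
  ⟨hx, ReflTransGen.refl⟩

theorem comp_closed {s : Set V} {x y z : V} (hy : y ∈ comp G s x) (h : G.Adj y z) (hz : z ∈ s) :
    z ∈ comp G s x := ⟨hz, ReflTransGen.tail hy.2 ⟨h, hz⟩⟩

theorem R_comp {s : Set V} {x y : V} (hr : R G s x y) : R G (comp G s x) x y := by
  induction hr with
  | refl => exact ReflTransGen.refl
  | @tail b c hab hbc ih =>
    exact ReflTransGen.tail ih ⟨hbc.1, hbc.2, ReflTransGen.tail hab hbc⟩

theorem conn_comp {s : Set V} {x : V} (hx : x ∈ s) : Conn G (comp G s x) := by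
  refine ⟨⟨x, mem_comp_self hx⟩, ?_⟩
  intro a ha b hb
  have h1 := R_comp ha.2
  have h2 := R_comp hb.2
  exact (R.symm (mem_comp_self hx) h1).trans h2

theorem Conn.subset_comp {s t : Set V} (ht : Conn G t) (hts : t ⊆ s) {x : V} (hx : x ∈ t) :
    t ⊆ comp G s x := fun y hy => ⟨hts hy, R.mono hts (ht.2 x hx y hy)⟩

theorem Conn.closed {s T : Set V} (hs : Conn G s) {x : V} (hx : x ∈ s) (hxT : x ∈ T)
    (hT : ∀ a ∈ s, a ∈ T → ∀ b ∈ s, G.Adj a b → b ∈ T) : s ⊆ T := by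
  intro y hy
  have h : y ∈ s ∩ T := R.closed (hs.2 x hx y hy) ⟨hx, hxT⟩
    (fun a ha b hb hab => ⟨hb, hT a ha.1 ha.2 b hb hab⟩)
  exact h.2

/-- if a connected set meets `T` but is not inside `T`, some edge leaves `T` -/
theorem Conn.exists_exit {s T : Set V} (hs : Conn G s) {x : V} (hx : x ∈ s) (hxT : x ∈ T)
    (hn : ¬ s ⊆ T) : ∃ a ∈ s, a ∈ T ∧ ∃ b ∈ s, b ∉ T ∧ G.Adj a b := by
  by_contra hcon
  push Not at hcon
  apply hn
  refine hs.closed hx hxT ?_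
  intro a ha haT b hb hab
  by_contra hbT
  exact hcon a ha haT b hb hbT hab

/-- a connected set meeting `T` and avoiding its outer neighbourhood is inside `T` -/
theorem Conn.subset_of_disjoint_nbr {s T : Set V} (hs : Conn G s) {x : V} (hx : x ∈ s)
    (hxT : x ∈ T) (hd : Disjoint s (nbr G T)) : s ⊆ T := by
  refine hs.closed hx hxT ?_
  intro a _ haT b hb hab
  by_contra hbT
  exact Set.disjoint_left.mp hd hb ⟨hbT, a, haT, hab⟩

theorem Conn.mem_nbr {s T : Set V} (hs : Conn G s) {x : V} (hx : x ∈ s)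
    (hxT : x ∈ T) (hn : ¬ s ⊆ T) : ∃ b ∈ s, b ∈ nbr G T := by
  obtain ⟨a, _, haT, b, hb, hbT, hab⟩ := hs.exists_exit hx hxT hn
  exact ⟨b, hb, hbT, a, haT, hab⟩

theorem conn_singleton (x : V) : Conn G ({x} : Set V) := by
  refine ⟨⟨x, rfl⟩, ?_⟩
  rintro a rfl b rfl
  exact ReflTransGen.refl

theorem Conn.union {s t : Set V} (hs : Conn G s) (ht : Conn G t) (hst : (s ∩ t).Nonempty) :
    Conn G (s ∪ t) := by
  obtain ⟨c, hcs, hct⟩ := hst
  refine ⟨⟨c, Or.inl hcs⟩, ?_⟩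
  have key : ∀ a ∈ s ∪ t, R G (s ∪ t) a c ∧ R G (s ∪ t) c a := by
    rintro a (ha | ha)
    · exact ⟨R.mono Set.subset_union_left (hs.2 a ha c hcs),
        R.mono Set.subset_union_left (hs.2 c hcs a ha)⟩
    · exact ⟨R.mono Set.subset_union_right (ht.2 a ha c hct),
        R.mono Set.subset_union_right (ht.2 c hct a ha)⟩
  intro a ha b hb
  exact (key a ha).1.trans (key b hb).2

theorem Conn.union_adj {s t : Set V} (hs : Conn G s) (ht : Conn G t) {x y : V} (hx : x ∈ s)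
    (hy : y ∈ t) (h : G.Adj x y) : Conn G (s ∪ t) := by
  refine ⟨⟨x, Or.inl hx⟩, ?_⟩
  have hxy : R G (s ∪ t) x y := R.single h (Or.inr hy)
  have hyx : R G (s ∪ t) y x := R.single h.symm (Or.inl hx)
  have key : ∀ a ∈ s ∪ t, R G (s ∪ t) a x ∧ R G (s ∪ t) x a := by
    rintro a (ha | ha)
    · exact ⟨R.mono Set.subset_union_left (hs.2 a ha x hx),
        R.mono Set.subset_union_left (hs.2 x hx a ha)⟩
    · exact ⟨(R.mono Set.subset_union_right (ht.2 a ha y hy)).trans hyx,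
        hxy.trans (R.mono Set.subset_union_right (ht.2 y hy a ha))⟩
  intro a ha b hb
  exact (key a ha).1.trans (key b hb).2

theorem Conn.insert {s : Set V} (hs : Conn G s) {x y : V} (hx : x ∈ s) (h : G.Adj x y) :
    Conn G (insert y s) := by
  have := (conn_singleton (G := G) y).union_adj hs (Set.mem_singleton y) hx h.symm
  rwa [Set.singleton_union] at this

/-- bridge to Mathlib's notion -/
theorem conn_iff {s : Set V} : Conn G s ↔ (G.induce s).Connected := by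
  constructor
  · rintro ⟨⟨x0, hx0⟩, h⟩
    have hne : Nonempty s := ⟨⟨x0, hx0⟩⟩
    refine ⟨?_⟩
    rintro ⟨x, hx⟩ ⟨y, hy⟩
    have hr := h x hx y hy
    have : ∀ z (hz : R G s x z), ∃ hzs : z ∈ s, (G.induce s).Reachable ⟨x, hx⟩ ⟨z, hzs⟩ := by
      intro z hz
      induction hz with
      | refl => exact ⟨hx, SimpleGraph.Reachable.refl _⟩
      | @tail b c hab hbc ih =>
        obtain ⟨hb, hr⟩ := ih
        refine ⟨hbc.2, hr.trans (SimpleGraph.Adj.reachable ?_)⟩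
        simpa using hbc.1
    obtain ⟨_, h2⟩ := this y hr
    exact h2
  · intro h
    obtain ⟨⟨x0, hx0⟩⟩ := h.nonempty
    refine ⟨⟨x0, hx0⟩, ?_⟩
    intro x hx y hy
    obtain ⟨p⟩ := h.preconnected ⟨x, hx⟩ ⟨y, hy⟩
    have key : ∀ (a b : s) (p : (G.induce s).Walk a b), R G s a.1 b.1 := by
      intro a b p
      induction p with
      | nil => exact ReflTransGen.refl
      | @cons u v w huv _ ih =>
        refine ReflTransGen.head ⟨?_, v.2⟩ ih
        simpa using huv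
    exact key _ _ p

theorem hasCompleteMinor_iff {t : ℕ} : HasCompleteMinor G t ↔
    ∃ B : Fin t → Set V, (∀ i, Conn G (B i)) ∧ (∀ i j, i ≠ j → Disjoint (B i) (B j)) ∧
    (∀ i j, i ≠ j → ∃ x ∈ B i, ∃ y ∈ B j, G.Adj x y) := by
  simp only [HasCompleteMinor, conn_iff]

/-- Rooted triangle lemma. -/
theorem rooted_triangle [Finite V] (s : Set V) {t1 t2 t3 : V}
    (h13 : t1 ≠ t3) (h23 : t2 ≠ t3) (m1 : t1 ∈ s) (m2 : t2 ∈ s) (m3 : t3 ∈ s)
    (H : ∀ v, (v ≠ t1 ∧ v ≠ t2 ∧ R G (s \ {v}) t1 t2) ∨ (v ≠ t1 ∧ v ≠ t3 ∧ R G (s \ {v}) t1 t3) ∨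
      (v ≠ t2 ∧ v ≠ t3 ∧ R G (s \ {v}) t2 t3)) :
    ∃ T1 T2 T3 : Set V, T1 ⊆ s ∧ T2 ⊆ s ∧ T3 ⊆ s ∧ Conn G T1 ∧ Conn G T2 ∧ Conn G T3 ∧
      t1 ∈ T1 ∧ t2 ∈ T2 ∧ t3 ∈ T3 ∧ Disjoint T1 T2 ∧ Disjoint T1 T3 ∧ Disjoint T2 T3 ∧
      (∃ x ∈ T1, ∃ y ∈ T2, G.Adj x y) ∧ (∃ x ∈ T1, ∃ y ∈ T3, G.Adj x y) ∧
      (∃ x ∈ T2, ∃ y ∈ T3, G.Adj x y) := by
  classical
  -- maximal K
  let P : Set (Set V) := {K | Conn G K ∧ K ⊆ s ∧ t3 ∈ K ∧ t1 ∉ K ∧ t2 ∉ K ∧ R G (s \ K) t1 t2}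
  have hP : P.Nonempty := by
    refine ⟨{t3}, conn_singleton t3, by simpa using m3, rfl, by simpa using h13,
      by simpa using h23, ?_⟩
    rcases H t3 with h | h | h
    · exact h.2.2
    · exact absurd rfl h.2.1
    · exact absurd rfl h.2.1
  obtain ⟨K, hKmax⟩ := (Set.toFinite P).exists_maximal hP
  obtain ⟨⟨hKc, hKs, hK3, hK1, hK2, hKr⟩, hmax⟩ := hKmax
  have m1' : t1 ∈ s \ K := ⟨m1, hK1⟩
  have m2' : t2 ∈ s \ K := ⟨m2, hK2⟩
  set Q : Set V := comp G (s \ K) t1 with hQ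
  have hQ1 : t1 ∈ Q := mem_comp_self m1'
  have hQ2 : t2 ∈ Q := ⟨m2', hKr⟩
  have hQs : Q ⊆ s \ K := comp_subset _ _
  have hQc : Conn G Q := conn_comp m1'
  have hQcl : ∀ a ∈ Q, ∀ b ∈ s \ K, G.Adj a b → b ∈ Q := fun a ha b hb hab =>
    comp_closed ha hab hb
  set B : Set V := {b | b ∈ Q ∧ ∃ k ∈ K, G.Adj b k} with hB
  -- adding a vertex of B to K
  have hsep : ∀ x ∈ B, x ≠ t1 → x ≠ t2 → ¬ R G (s \ (insert x K)) t1 t2 := by
    rintro x ⟨hxQ, k, hk, hxk⟩ hx1 hx2 hr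
    have hins : insert x K ∈ P := by
      refine ⟨hKc.insert hk hxk.symm, ?_, Set.mem_insert_of_mem _ hK3, ?_, ?_, hr⟩
      · exact Set.insert_subset (hQs hxQ).1 hKs
      · rintro (h | h)
        · exact hx1 h.symm
        · exact hK1 h
      · rintro (h | h)
        · exact hx2 h.symm
        · exact hK2 h
    have := hmax hins (Set.subset_insert _ _)
    exact (hQs hxQ).2 (this (Set.mem_insert _ _))
  -- B has two elements
  have hB2 : ∃ b ∈ B, ∃ b' ∈ B, b ≠ b' := by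
    by_contra hcon
    push Not at hcon
    rcases B.eq_empty_or_nonempty with he | ⟨b, hb⟩
    · -- no edge between Q and K
      have hQcl' : ∀ a ∈ Q, ∀ b ∈ s, G.Adj a b → b ∈ Q := by
        intro a ha b hb hab
        by_cases hbK : b ∈ K
        · exfalso
          have : a ∈ B := ⟨ha, b, hbK, hab⟩
          rw [he] at this
          exact this
        · exact hQcl a ha b ⟨hb, hbK⟩ hab
      have h3 : t3 ∉ Q := fun h => (hQs h).2 hK3
      rcases H t1 with h | h | h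
      · exact h.1 rfl
      · exact h.1 rfl
      · exact h3 (R.closed (R.mono Set.sdiff_subset h.2.2) hQ2 hQcl')
    · have hbu : ∀ x ∈ B, x = b := fun x hx => hcon x hx b hb
      have hcl : ∀ a ∈ Q \ {b}, ∀ c ∈ s \ {b}, G.Adj a c → c ∈ Q \ {b} := by
        intro a ha c hc hac
        by_cases hcK : c ∈ K
        · exact absurd (hbu a ⟨ha.1, c, hcK, hac⟩) ha.2
        · exact ⟨hQcl a ha.1 c ⟨hc.1, hcK⟩ hac, hc.2⟩
      have h3 : t3 ∉ Q \ {b} := fun h => (hQs h.1).2 hK3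
      rcases H b with ⟨h1, h2, h⟩ | ⟨h1, h2, h⟩ | ⟨h1, h2, h⟩
      · have hr : R G (s \ (insert b K)) t1 t2 := by
          have h' := R.inter h (T := Q \ {b}) ⟨hQ1, fun e => h1 e.symm⟩ hcl
          refine R.mono ?_ h'
          rintro x ⟨_, hx, hxb⟩
          refine ⟨(hQs hx).1, ?_⟩
          rintro (e | e)
          · exact hxb e
          · exact (hQs hx).2 e
        exact hsep b hb h1 h2 hr
      · exact h3 (R.closed h ⟨hQ1, fun e => h1 e.symm⟩ hcl)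
      · exact h3 (R.closed h ⟨hQ2, fun e => h1 e.symm⟩ hcl)
  -- for x in B, x ≠ t2
  -- T2 x = comp (Q \ {x}) t2
  have hmain : ∀ x ∈ B, x ≠ t2 → ∀ y ∈ B, y ∈ comp G (Q \ {x}) t2 →
      ∃ T1 T2 T3 : Set V, T1 ⊆ s ∧ T2 ⊆ s ∧ T3 ⊆ s ∧ Conn G T1 ∧ Conn G T2 ∧ Conn G T3 ∧
      t1 ∈ T1 ∧ t2 ∈ T2 ∧ t3 ∈ T3 ∧ Disjoint T1 T2 ∧ Disjoint T1 T3 ∧ Disjoint T2 T3 ∧
      (∃ x ∈ T1, ∃ y ∈ T2, G.Adj x y) ∧ (∃ x ∈ T1, ∃ y ∈ T3, G.Adj x y) ∧
      (∃ x ∈ T2, ∃ y ∈ T3, G.Adj x y) := by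
    intro x hx hx2 y hy hyT
    have ht2 : t2 ∈ Q \ {x} := ⟨hQ2, fun e => hx2 e.symm⟩
    set T2 : Set V := comp G (Q \ {x}) t2 with hT2
    have hT2c : Conn G T2 := conn_comp ht2
    have hT2Q : T2 ⊆ Q := fun z hz => hz.1.1
    have ht2T : t2 ∈ T2 := mem_comp_self ht2
    have ht1T : t1 ∉ T2 := by
      intro h
      by_cases hx1 : x = t1
      · exact h.1.2 hx1.symm
      · apply hsep x hx hx1 hx2
        have h' : R G (Q \ {x}) t1 t2 := R.symm ht2 h.2
        refine R.mono ?_ h'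
        rintro z ⟨hz, hzx⟩
        refine ⟨(hQs hz).1, ?_⟩
        rintro (e | e)
        · exact hzx e
        · exact (hQs hz).2 e
    have hxT : x ∉ T2 := fun h => h.1.2 rfl
    have ht1' : t1 ∈ Q \ T2 := ⟨hQ1, ht1T⟩
    set T1 : Set V := comp G (Q \ T2) t1 with hT1
    have hT1c : Conn G T1 := conn_comp ht1'
    -- x ∈ T1
    have hxT1 : x ∈ T1 := by
      by_contra hxn
      -- T1 is closed in Q
      have hcl : ∀ a ∈ Q, a ∈ T1 → ∀ b ∈ Q, G.Adj a b → b ∈ T1 := by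
        intro a _ ha b hb hab
        by_cases hbT : b ∈ T2
        · exfalso
          -- a adjacent to T2, a ∉ T2 so a = x
          have ha' : a ∈ Q \ T2 := ha.1
          have hax : a = x := by
            by_contra hax
            exact ha'.2 (comp_closed hbT hab.symm ⟨ha'.1, hax⟩)
          rw [hax] at ha
          exact hxn ha
        · exact comp_closed ha hab ⟨hb, hbT⟩
      have := hQc.closed hQ1 (mem_comp_self ht1') hcl
      exact (this hQ2).1.2 ht2T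
    -- x adjacent to T2
    obtain ⟨a, haQ, haT, b, hbQ, hbT, hab⟩ := hQc.exists_exit hQ2 ht2T (fun h => ht1T (h hQ1))
    have hbx : b = x := by
      by_contra hbx
      exact hbT (comp_closed haT hab ⟨hbQ, hbx⟩)
    refine ⟨T1, T2, K, ?_, ?_, hKs, hT1c, hT2c, hKc, mem_comp_self ht1', ht2T, hK3, ?_, ?_, ?_,
      ⟨x, hxT1, a, haT, ?_⟩, ?_, ?_⟩
    · exact fun z hz => (hQs hz.1.1).1
    · exact fun z hz => (hQs (hT2Q hz)).1
    · exact Set.disjoint_left.mpr (fun z hz1 hz2 => hz1.1.2 hz2)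
    · exact Set.disjoint_left.mpr (fun z hz1 hz2 => (hQs hz1.1.1).2 hz2)
    · exact Set.disjoint_left.mpr (fun z hz1 hz2 => (hQs (hT2Q hz1)).2 hz2)
    · rw [← hbx]; exact hab.symm
    · obtain ⟨_, k, hk, hxk⟩ := hx
      exact ⟨x, hxT1, k, hk, hxk⟩
    · obtain ⟨_, k, hk, hyk⟩ := hy
      exact ⟨y, hyT, k, hk, hyk⟩
  obtain ⟨b, hb, b', hb', hne⟩ := hB2
  by_cases hb2 : b = t2
  · have hb2' : b' ≠ t2 := fun e => hne (hb2.trans e.symm)
    refine hmain b' hb' hb2' b hb ?_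
    rw [hb2]
    exact mem_comp_self ⟨hQ2, fun e => hb2' e.symm⟩
  · by_cases hin : b' ∈ comp G (Q \ {b}) t2
    · exact hmain b hb hb2 b' hb' hin
    · have hb2' : b' ≠ t2 := by
        intro e
        apply hin
        rw [e]
        exact mem_comp_self ⟨hQ2, fun e => hb2 e.symm⟩
      refine hmain b' hb' hb2' b hb ?_
      have ht2 : t2 ∈ Q \ {b} := ⟨hQ2, fun e => hb2 e.symm⟩
      have ht2' : t2 ∈ Q \ {b'} := ⟨hQ2, fun e => hb2' e.symm⟩
      have hTc : Conn G (comp G (Q \ {b}) t2) := conn_comp ht2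
      -- b is adjacent to comp (Q \ {b}) t2
      have hT1 : t1 ∉ comp G (Q \ {b}) t2 := by
        intro h
        by_cases hx1 : b = t1
        · exact h.1.2 hx1.symm
        · apply hsep b hb hx1 hb2
          have h' : R G (Q \ {b}) t1 t2 := R.symm ht2 h.2
          refine R.mono ?_ h'
          rintro z ⟨hz, hzx⟩
          refine ⟨(hQs hz).1, ?_⟩
          rintro (e | e)
          · exact hzx e
          · exact (hQs hz).2 e
      obtain ⟨a, haQ, haT, c, hcQ, hcT, hac⟩ := hQc.exists_exit hQ2 (mem_comp_self ht2)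
        (fun h => hT1 (h hQ1))
      have hcb : c = b := by
        by_contra hcb
        exact hcT (comp_closed haT hac ⟨hcQ, hcb⟩)
      rw [hcb] at hac
      have hU : Conn G (insert b (comp G (Q \ {b}) t2)) := hTc.insert haT hac
      have hsub : insert b (comp G (Q \ {b}) t2) ⊆ Q \ {b'} := by
        rintro z (rfl | hz)
        · exact ⟨hb.1, hne⟩
        · refine ⟨hz.1.1, ?_⟩
          intro e
          rw [Set.mem_singleton_iff] at e
          rw [e] at hz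
          exact hin hz
      exact hU.subset_comp hsub (Set.mem_insert_of_mem _ (mem_comp_self ht2))
        (Set.mem_insert _ _)

/-- five pairwise adjacent branch sets -/
theorem complete5 {P T : V} {T1 T2 T3 : Set V} (hPT : G.Adj P T)
    (c1 : Conn G T1) (c2 : Conn G T2) (c3 : Conn G T3)
    (hP1 : P ∉ T1) (hP2 : P ∉ T2) (hP3 : P ∉ T3) (hT1 : T ∉ T1) (hT2 : T ∉ T2) (hT3 : T ∉ T3)
    (d12 : Disjoint T1 T2) (d13 : Disjoint T1 T3) (d23 : Disjoint T2 T3)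
    (a12 : ∃ x ∈ T1, ∃ y ∈ T2, G.Adj x y) (a13 : ∃ x ∈ T1, ∃ y ∈ T3, G.Adj x y)
    (a23 : ∃ x ∈ T2, ∃ y ∈ T3, G.Adj x y)
    (p1 : ∃ x ∈ T1, G.Adj P x) (p2 : ∃ x ∈ T2, G.Adj P x) (p3 : ∃ x ∈ T3, G.Adj P x)
    (q1 : ∃ x ∈ T1, G.Adj T x) (q2 : ∃ x ∈ T2, G.Adj T x) (q3 : ∃ x ∈ T3, G.Adj T x) :
    HasCompleteMinor G 5 := by
  rw [hasCompleteMinor_iff]
  have sym : ∀ {A B : Set V}, (∃ x ∈ A, ∃ y ∈ B, G.Adj x y) → ∃ x ∈ B, ∃ y ∈ A, G.Adj x y := by
    rintro A B ⟨x, hx, y, hy, h⟩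
    exact ⟨y, hy, x, hx, h.symm⟩
  have pt : ∃ x ∈ ({P} : Set V), ∃ y ∈ ({T} : Set V), G.Adj x y := ⟨P, rfl, T, rfl, hPT⟩
  have pp : ∀ {A : Set V} {X : V}, (∃ x ∈ A, G.Adj X x) → ∃ x ∈ ({X} : Set V), ∃ y ∈ A, G.Adj x y := by
    rintro A X ⟨x, hx, h⟩
    exact ⟨X, rfl, x, hx, h⟩
  refine ⟨![{P}, {T}, T1, T2, T3], ?_, ?_, ?_⟩
  · intro i
    fin_cases i
    · exact conn_singleton P
    · exact conn_singleton T
    · exact c1
    · exact c2
    · exact c3
  · have hd : ∀ i j : Fin 5, i < j → Disjoint ((![{P}, {T}, T1, T2, T3] : Fin 5 → Set V) i)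
        ((![{P}, {T}, T1, T2, T3] : Fin 5 → Set V) j) := by
      intro i j hij
      fin_cases i <;> fin_cases j <;> first
        | (exfalso; revert hij; decide)
        | exact Set.disjoint_singleton.mpr hPT.ne
        | exact Set.disjoint_singleton_left.mpr hP1
        | exact Set.disjoint_singleton_left.mpr hP2
        | exact Set.disjoint_singleton_left.mpr hP3
        | exact Set.disjoint_singleton_left.mpr hT1
        | exact Set.disjoint_singleton_left.mpr hT2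
        | exact Set.disjoint_singleton_left.mpr hT3
        | exact d12
        | exact d13
        | exact d23
    intro i j hij
    rcases lt_or_gt_of_ne hij with h | h
    · exact hd i j h
    · exact (hd j i h).symm
  · have ha : ∀ i j : Fin 5, i < j → ∃ x ∈ ((![{P}, {T}, T1, T2, T3] : Fin 5 → Set V) i),
        ∃ y ∈ ((![{P}, {T}, T1, T2, T3] : Fin 5 → Set V) j), G.Adj x y := by
      intro i j hij
      fin_cases i <;> fin_cases j <;> first
        | (exfalso; revert hij; decide)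
        | exact pt
        | exact pp p1
        | exact pp p2
        | exact pp p3
        | exact pp q1
        | exact pp q2
        | exact pp q3
        | exact a12
        | exact a13
        | exact a23
    intro i j hij
    rcases lt_or_gt_of_ne hij with h | h
    · exact ha i j h
    · exact sym (ha j i h)

/-- The form used for counting zigzags: `s` stays connected after removing any vertex. -/
theorem complete5_of_robust [Finite V] {P T : V} (hPT : G.Adj P T) (s : Set V)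
    (hP : P ∉ s) (hT : T ∉ s) (hs : ∀ v, Conn G (s \ {v})) {t1 t2 t3 : V}
    (h12 : t1 ≠ t2) (h13 : t1 ≠ t3) (h23 : t2 ≠ t3) (m1 : t1 ∈ s) (m2 : t2 ∈ s) (m3 : t3 ∈ s)
    (p1 : G.Adj P t1) (p2 : G.Adj P t2) (p3 : G.Adj P t3)
    (q1 : G.Adj T t1) (q2 : G.Adj T t2) (q3 : G.Adj T t3) : HasCompleteMinor G 5 := by
  have H : ∀ v, (v ≠ t1 ∧ v ≠ t2 ∧ R G (s \ {v}) t1 t2) ∨ (v ≠ t1 ∧ v ≠ t3 ∧ R G (s \ {v}) t1 t3) ∨
      (v ≠ t2 ∧ v ≠ t3 ∧ R G (s \ {v}) t2 t3) := by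
    intro v
    by_cases hv1 : v = t1
    · right; right
      subst hv1
      exact ⟨h12, h13, (hs v).2 _ ⟨m2, fun e => h12 e.symm⟩ _ ⟨m3, fun e => h13 e.symm⟩⟩
    · by_cases hv2 : v = t2
      · right; left
        subst hv2
        exact ⟨hv1, h23, (hs v).2 _ ⟨m1, fun e => hv1 e.symm⟩ _ ⟨m3, fun e => h23 e.symm⟩⟩
      · left
        exact ⟨hv1, hv2, (hs v).2 _ ⟨m1, fun e => hv1 e.symm⟩ _ ⟨m2, fun e => hv2 e.symm⟩⟩
  obtain ⟨T1, T2, T3, s1, s2, s3, c1, c2, c3, e1, e2, e3, d12, d13, d23, a12, a13, a23⟩ :=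
    rooted_triangle s h13 h23 m1 m2 m3 H
  exact complete5 hPT c1 c2 c3 (fun h => hP (s1 h)) (fun h => hP (s2 h)) (fun h => hP (s3 h))
    (fun h => hT (s1 h)) (fun h => hT (s2 h)) (fun h => hT (s3 h)) d12 d13 d23 a12 a13 a23
    ⟨t1, e1, p1⟩ ⟨t2, e2, p2⟩ ⟨t3, e3, p3⟩ ⟨t1, e1, q1⟩ ⟨t2, e2, q2⟩ ⟨t3, e3, q3⟩

/-- The form used for regions: three common neighbours of an edge are pairwise separated by one
vertex. -/
theorem exists_separator [Finite V] (hG : ¬ HasCompleteMinor G 5) {P T : V} (hPT : G.Adj P T)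
    {t1 t2 t3 : V} (h13 : t1 ≠ t3) (h23 : t2 ≠ t3)
    (p1 : G.Adj P t1) (p2 : G.Adj P t2) (p3 : G.Adj P t3)
    (q1 : G.Adj T t1) (q2 : G.Adj T t2) (q3 : G.Adj T t3) :
    ∃ v, (v ≠ t1 → v ≠ t2 → ¬ R G (({P, T} : Set V)ᶜ \ {v}) t1 t2) ∧
      (v ≠ t1 → v ≠ t3 → ¬ R G (({P, T} : Set V)ᶜ \ {v}) t1 t3) ∧
      (v ≠ t2 → v ≠ t3 → ¬ R G (({P, T} : Set V)ᶜ \ {v}) t2 t3) := by
  by_contra hcon
  push Not at hcon
  have H : ∀ v, (v ≠ t1 ∧ v ≠ t2 ∧ R G (({P, T} : Set V)ᶜ \ {v}) t1 t2) ∨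
      (v ≠ t1 ∧ v ≠ t3 ∧ R G (({P, T} : Set V)ᶜ \ {v}) t1 t3) ∨
      (v ≠ t2 ∧ v ≠ t3 ∧ R G (({P, T} : Set V)ᶜ \ {v}) t2 t3) := by
    intro v
    by_contra hv
    push Not at hv
    obtain ⟨h1, h2, h3⟩ := hv
    obtain ⟨a, b, c⟩ := hcon v h1 h2
    exact h3 a b c
  have mem : ∀ {t : V}, G.Adj P t → G.Adj T t → t ∈ ({P, T} : Set V)ᶜ := by
    intro t hp hq h
    rcases h with h | h
    · exact hp.ne h.symm
    · exact hq.ne (Set.mem_singleton_iff.mp h).symm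
  obtain ⟨T1, T2, T3, s1, s2, s3, c1, c2, c3, e1, e2, e3, d12, d13, d23, a12, a13, a23⟩ :=
    rooted_triangle _ h13 h23 (mem p1 q1) (mem p2 q2) (mem p3 q3) H
  exact hG (complete5 hPT c1 c2 c3 (fun h => s1 h (Or.inl rfl)) (fun h => s2 h (Or.inl rfl))
    (fun h => s3 h (Or.inl rfl))
    (fun h => s1 h (Or.inr rfl)) (fun h => s2 h (Or.inr rfl)) (fun h => s3 h (Or.inr rfl))
    d12 d13 d23 a12 a13 a23
    ⟨t1, e1, p1⟩ ⟨t2, e2, p2⟩ ⟨t3, e3, p3⟩ ⟨t1, e1, q1⟩ ⟨t2, e2, q2⟩ ⟨t3, e3, q3⟩)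

end Pool.Agent.H19.UG
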