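import Pool.Agent.H19.UG.Defs

/-! Few candidate edges: submodularity of the neighbourhood function and branching. -/

namespace Pool.Agent.H19.UG

variable {V : Type*} {G : SimpleGraph V}

/-- the neighbourhood function is submodular -/
theorem ncard_nbr_submod [Finite V] (A B : Set V) :
    (nbr G (A ∪ B)).ncard + (nbr G (A ∩ B)).ncard ≤ (nbr G A).ncard + (nbr G B).ncard := by
  have h1 : nbr G (A ∪ B) ∪ nbr G (A ∩ B) ⊆ nbr G A ∪ nbr G B := by
    rintro v (⟨hv, a, ha, hav⟩ | ⟨hv, a, ha, hav⟩)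
    · rcases ha with ha | ha
      · exact Or.inl ⟨fun h => hv (Or.inl h), a, ha, hav⟩
      · exact Or.inr ⟨fun h => hv (Or.inr h), a, ha, hav⟩
    · by_cases hvA : v ∈ A
      · exact Or.inr ⟨fun h => hv ⟨hvA, h⟩, a, ha.2, hav⟩
      · exact Or.inl ⟨hvA, a, ha.1, hav⟩
  have h2 : nbr G (A ∪ B) ∩ nbr G (A ∩ B) ⊆ nbr G A ∩ nbr G B := by
    rintro v ⟨⟨hv, _⟩, ⟨_, a, ha, hav⟩⟩
    exact ⟨⟨fun h => hv (Or.inl h), a, ha.1, hav⟩, ⟨fun h => hv (Or.inr h), a, ha.2, hav⟩⟩
  have e1 := Set.ncard_union_add_ncard_inter (nbr G (A ∪ B)) (nbr G (A ∩ B))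
    (Set.toFinite _) (Set.toFinite _)
  have e2 := Set.ncard_union_add_ncard_inter (nbr G A) (nbr G B)
    (Set.toFinite _) (Set.toFinite _)
  have l1 := Set.ncard_le_ncard h1 (Set.toFinite _)
  have l2 := Set.ncard_le_ncard h2 (Set.toFinite _)
  omega

/-- a vertex adjacent to six disjoint large connected sets is not in a small set with few
neighbours -/
theorem notMem_of_many [Finite V] {k : ℕ} {z : V} {D : Fin 6 → Set V} {ρ : Set V}
    (hc : ∀ i, Conn G (D i)) (hd : ∀ i j, i ≠ j → Disjoint (D i) (D j))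
    (hz : ∀ i, z ∈ nbr G (D i)) (hs : ∀ i, 2 ^ k ≤ (D i).ncard)
    (h4 : (nbr G ρ).ncard ≤ 4) (hρ : ρ.ncard < 2 ^ (k + 1)) : z ∉ ρ := by
  classical
  intro hzρ
  -- sets meeting the neighbourhood
  have key : ∀ i, Disjoint (D i) (nbr G ρ) → D i ⊆ ρ := by
    intro i hi
    obtain ⟨_, a, ha, haz⟩ := hz i
    have haρ : a ∈ ρ := by
      by_contra hn
      exact Set.disjoint_left.mp hi ha ⟨hn, z, hzρ, haz.symm⟩
    exact (hc i).subset_of_disjoint_nbr ha haρ hi
  set T : Finset (Fin 6) := Finset.univ.filter fun i => Disjoint (D i) (nbr G ρ) with hT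
  have hTc : Tᶜ.card ≤ 4 := by
    have hex : ∀ i : Fin 6, ∃ v : V, i ∈ Tᶜ → v ∈ D i ∧ v ∈ nbr G ρ := by
      intro i
      by_cases hi : i ∈ Tᶜ
      · rw [hT, Finset.mem_compl, Finset.mem_filter] at hi
        have : ¬ Disjoint (D i) (nbr G ρ) := fun h => hi ⟨Finset.mem_univ _, h⟩
        obtain ⟨v, hv, hv'⟩ := Set.not_disjoint_iff.mp this
        exact ⟨v, fun _ => ⟨hv, hv'⟩⟩
      · exact ⟨z, fun h => absurd h hi⟩
    choose v hv using hex
    have hinj : Set.InjOn v (Tᶜ : Finset (Fin 6)) := by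
      intro i hi j hj hij
      by_contra hne
      have h1 := (hv i hi).1
      have h2 := (hv j hj).1
      rw [← hij] at h2
      exact Set.disjoint_left.mp (hd i j hne) h1 h2
    calc Tᶜ.card = (Tᶜ.image v).card := (Finset.card_image_of_injOn hinj).symm
      _ = ((Tᶜ.image v : Finset V) : Set V).ncard := (Set.ncard_coe_finset _).symm
      _ ≤ (nbr G ρ).ncard := by
          apply Set.ncard_le_ncard _ (Set.toFinite _)
          intro x hx
          obtain ⟨i, hi, rfl⟩ := Finset.mem_image.1 (Finset.mem_coe.1 hx)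
          exact (hv i hi).2
      _ ≤ 4 := h4
  have hTc2 : 2 ≤ T.card := by
    have h := Finset.card_add_card_compl T
    rw [Fintype.card_fin] at h
    omega
  obtain ⟨i, hi, j, hj, hij⟩ := Finset.one_lt_card.1 (show 1 < T.card by omega)
  have hi' := key i (Finset.mem_filter.1 hi).2
  have hj' := key j (Finset.mem_filter.1 hj).2
  have hU : (D i ∪ D j).ncard ≤ ρ.ncard :=
    Set.ncard_le_ncard (Set.union_subset hi' hj') (Set.toFinite _)
  rw [Set.ncard_union_eq (hd i j hij) (Set.toFinite _) (Set.toFinite _)] at hU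
  have h1 := hs i
  have h2 := hs j
  rw [pow_succ] at hρ
  omega

/-- the bounds in the branching -/
def bb : ℕ → ℕ
  | 0 => 0
  | d + 1 => 16 + 4 * bb d

theorem branching [Finite V] (u : V) (E : Set (V × V)) (Y : Set V) (ρ : V × V → Set V)
    (hc : ∀ e ∈ E, Conn G (ρ e)) (hu : ∀ e ∈ E, u ∈ ρ e)
    (h1 : ∀ e ∈ E, e.1 ∈ nbr G (ρ e)) (h2 : ∀ e ∈ E, e.2 ∈ nbr G (ρ e))
    (hY1 : ∀ e ∈ E, e.1 ∈ Y) (hY2 : ∀ e ∈ E, e.2 ∈ Y)
    (hY : ∀ e ∈ E, Disjoint (ρ e) Y) (d : ℕ) :
    ∀ X : Set V, u ∈ X → Disjoint X Y →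
      (∀ A : Set V, X ⊆ A → Disjoint A Y → 5 - d ≤ (nbr G A).ncard) →
      {e | e ∈ E ∧ (nbr G (ρ e ∪ X)).ncard ≤ 4}.ncard ≤ bb d := by
  induction d with
  | zero =>
    intro X huX hXY hX
    have : {e | e ∈ E ∧ (nbr G (ρ e ∪ X)).ncard ≤ 4} = ∅ := by
      rw [Set.eq_empty_iff_forall_notMem]
      rintro e ⟨he, he4⟩
      have := hX (ρ e ∪ X) Set.subset_union_right (Set.disjoint_union_left.2 ⟨hY e he, hXY⟩)
      omega
    rw [this, Set.ncard_empty]
    exact Nat.zero_le _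
  | succ d ih =>
    intro X huX hXY hX
    let P : Set (Set V) := {A | X ⊆ A ∧ Disjoint A Y ∧ (nbr G A).ncard = 4 - d}
    rcases P.eq_empty_or_nonempty with hP | hP
    · refine (ih X huX hXY ?_).trans (by simp only [bb]; omega)
      intro A hA hAY
      have h5 := hX A hA hAY
      by_contra hlt
      have hmem : A ∈ P := ⟨hA, hAY, by omega⟩
      rw [hP] at hmem
      exact hmem
    · obtain ⟨R, ⟨hXR, hRY, hRf⟩, hRmax⟩ := (Set.toFinite P).exists_maximal hP
      have huR : u ∈ R := hXR huX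
      have hsub : {e | e ∈ E ∧ (nbr G (ρ e ∪ X)).ncard ≤ 4} ⊆
          (nbr G R) ×ˢ (nbr G R) ∪ ⋃ s ∈ (Set.toFinite (nbr G R \ Y)).toFinset,
            {e | e ∈ E ∧ (nbr G (ρ e ∪ (insert s R))).ncard ≤ 4} := by
        rintro e ⟨he, he4⟩
        have hsm := ncard_nbr_submod (G := G) (ρ e ∪ X) R
        have e1 : ρ e ∪ X ∪ R = ρ e ∪ R := by
          rw [Set.union_assoc, Set.union_eq_self_of_subset_left hXR]
        rw [e1] at hsm
        have h3 := hX ((ρ e ∪ X) ∩ R) (Set.subset_inter Set.subset_union_right hXR)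
          (hRY.mono_left Set.inter_subset_right)
        have h4 : (nbr G (ρ e ∪ R)).ncard ≤ 4 := by omega
        by_cases hsubR : ρ e ⊆ R
        · left
          obtain ⟨_, a, ha, haz⟩ := h1 e he
          obtain ⟨_, b, hb, hbw⟩ := h2 e he
          exact ⟨⟨fun h => Set.disjoint_left.mp hRY h (hY1 e he), a, hsubR ha, haz⟩,
            ⟨fun h => Set.disjoint_left.mp hRY h (hY2 e he), b, hsubR hb, hbw⟩⟩
        · right
          obtain ⟨s, hs, hsR⟩ := (hc e he).mem_nbr (hu e he) huR hsubR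
          have hsY : s ∉ Y := fun h => Set.disjoint_left.mp (hY e he) hs h
          refine Set.mem_iUnion₂.2 ⟨s, ?_, he, ?_⟩
          · rw [Set.Finite.mem_toFinset]
            exact ⟨hsR, hsY⟩
          · have e2 : ρ e ∪ insert s R = ρ e ∪ R := by
              rw [Set.union_insert]
              exact Set.insert_eq_of_mem (Set.mem_union_left _ hs)
            rw [e2]
            exact h4
      have hcard1 : ((nbr G R) ×ˢ (nbr G R)).ncard ≤ 16 := by
        rw [Set.ncard_prod, hRf]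
        have : 4 - d ≤ 4 := by omega
        calc (4 - d) * (4 - d) ≤ 4 * 4 := Nat.mul_le_mul this this
          _ = 16 := by norm_num
      have hfin : (Set.toFinite (nbr G R \ Y)).toFinset.card ≤ 4 := by
        rw [← Set.ncard_eq_toFinset_card]
        calc (nbr G R \ Y).ncard ≤ (nbr G R).ncard :=
              Set.ncard_le_ncard Set.sdiff_subset (Set.toFinite _)
          _ ≤ 4 := by omega
      have hcard2 : (⋃ s ∈ (Set.toFinite (nbr G R \ Y)).toFinset,
            {e | e ∈ E ∧ (nbr G (ρ e ∪ (insert s R))).ncard ≤ 4}).ncard ≤ 4 * bb d := by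
        refine (Finset.set_ncard_biUnion_le _ _).trans ?_
        have hle : ∀ s ∈ (Set.toFinite (nbr G R \ Y)).toFinset,
            {e | e ∈ E ∧ (nbr G (ρ e ∪ (insert s R))).ncard ≤ 4}.ncard ≤ bb d := by
          intro s hs
          rw [Set.Finite.mem_toFinset] at hs
          refine ih (insert s R) (Set.mem_insert_of_mem _ huR) ?_ ?_
          · rw [Set.disjoint_left]
            rintro x (rfl | hx) hxY
            · exact hs.2 hxY
            · exact Set.disjoint_left.mp hRY hx hxY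
          · intro A hA hAY
            have hRA : R ⊆ A := (Set.subset_insert _ _).trans hA
            have h5 := hX A (hXR.trans hRA) hAY
            by_contra hlt
            have hmem : A ∈ P := ⟨hXR.trans hRA, hAY, by omega⟩
            exact hs.1.1 (hRmax hmem hRA (hA (Set.mem_insert _ _)))
        calc _ ≤ (Set.toFinite (nbr G R \ Y)).toFinset.card • bb d :=
              Finset.sum_le_card_nsmul _ _ _ hle
          _ ≤ 4 * bb d := by
              rw [smul_eq_mul]
              exact Nat.mul_le_mul_right _ hfin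
      calc _ ≤ _ := Set.ncard_le_ncard hsub (Set.toFinite _)
        _ ≤ _ := Set.ncard_union_le _ _
        _ ≤ 16 + 4 * bb d := Nat.add_le_add hcard1 hcard2
        _ = bb (d + 1) := rfl

theorem cand_card [Finite V] (u : V) (k : ℕ) : (Cand G u k).ncard ≤ 5456 := by
  classical
  have hex : ∀ e : V × V, ∃ ρ : Set V, e ∈ Cand G u k →
      Conn G ρ ∧ u ∈ ρ ∧ e.1 ∈ nbr G ρ ∧ e.2 ∈ nbr G ρ ∧
     (nbr G ρ).ncard ≤ 4 ∧ ρ.ncard < 2 ^ (k + 1) ∧
     ∃ D : Fin 6 → Set V, (∀ i, Conn G (D i)) ∧ (∀ i j, i ≠ j → Disjoint (D i) (D j)) ∧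
       (∀ i, e.1 ∈ nbr G (D i) ∧ e.2 ∈ nbr G (D i) ∧ 2 ^ k ≤ (D i).ncard) := by
    intro e
    by_cases he : e ∈ Cand G u k
    · obtain ⟨ρ, hρ⟩ := he
      exact ⟨ρ, fun _ => hρ⟩
    · exact ⟨∅, fun h => absurd h he⟩
  choose ρ hρ using hex
  let Y : Set V := {y | ∃ e ∈ Cand G u k, y = e.1 ∨ y = e.2}
  have hY : ∀ e ∈ Cand G u k, Disjoint (ρ e) Y := by
    intro e he
    rw [Set.disjoint_left]
    rintro y hy ⟨e', he', hy'⟩
    obtain ⟨-, -, -, -, h4, hlt, -⟩ := hρ e he
    obtain ⟨-, -, -, -, -, -, D, hDc, hDd, hD⟩ := hρ e' he'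
    rcases hy' with rfl | rfl
    · exact notMem_of_many hDc hDd (fun i => (hD i).1) (fun i => (hD i).2.2) h4 hlt hy
    · exact notMem_of_many hDc hDd (fun i => (hD i).2.1) (fun i => (hD i).2.2) h4 hlt hy
  rcases (Cand G u k).eq_empty_or_nonempty with hE | ⟨e0, he0⟩
  · rw [hE, Set.ncard_empty]
    exact Nat.zero_le _
  have huY : u ∉ Y := fun h => Set.disjoint_left.mp (hY e0 he0) (hρ e0 he0).2.1 h
  have key := branching (G := G) u (Cand G u k) Y ρ (fun e he => (hρ e he).1)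
    (fun e he => (hρ e he).2.1) (fun e he => (hρ e he).2.2.1) (fun e he => (hρ e he).2.2.2.1)
    (fun e he => ⟨e, he, Or.inl rfl⟩) (fun e he => ⟨e, he, Or.inr rfl⟩) hY 5 {u} rfl
    (Set.disjoint_singleton_left.2 huY) (fun A _ _ => by omega)
  have hset : {e | e ∈ Cand G u k ∧ (nbr G (ρ e ∪ {u})).ncard ≤ 4} = Cand G u k := by
    ext e
    constructor
    · exact fun h => h.1
    · intro he
      refine ⟨he, ?_⟩
      have : ρ e ∪ {u} = ρ e := Set.union_eq_self_of_subset_right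
        (Set.singleton_subset_iff.2 (hρ e he).2.1)
      rw [this]
      exact (hρ e he).2.2.2.2.1
  rw [hset] at key
  exact key.trans (by simp only [bb]; norm_num)

end Pool.Agent.H19.UG
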