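import Pool.Agent.H19.UG.Basic

/-! Good regions around disjoint connected sets attached to one edge. -/

namespace Pool.Agent.H19.UG

open Relation

variable {V : Type*} {G : SimpleGraph V}

/-- the first visit of a walk to a set -/
theorem R.first_hit {s : Set V} {x y : V} (h : R G s x y) (B : Set V) :
    R G (s \ B) x y ∨ ∃ p q, R G (s \ B) x p ∧ G.Adj p q ∧ q ∈ B ∧ q ∈ s := by
  induction h with
  | refl => exact Or.inl ReflTransGen.refl
  | @tail b c hab hbc ih =>
    rcases ih with ih | ih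
    · by_cases hc : c ∈ B
      · exact Or.inr ⟨b, c, ih, hbc.1, hc, hbc.2⟩
      · exact Or.inl (ReflTransGen.tail ih ⟨hbc.1, hbc.2, hc⟩)
    · exact Or.inr ih

theorem R.hit {s : Set V} {x y v : V} (h : R G s x y) (hn : ¬ R G (s \ {v}) x y) :
    v ∈ s ∧ ∃ p, R G (s \ {v}) x p ∧ G.Adj p v := by
  rcases h.first_hit {v} with h | ⟨p, q, h1, h2, h3, h4⟩
  · exact absurd h hn
  · rw [Set.mem_singleton_iff] at h3
    subst h3
    exact ⟨h4, p, h1, h2⟩

theorem R.step {s : Set V} {x p q : V} (h : R G s x p) (ha : G.Adj p q) (hq : q ∈ s) :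
    R G s x q := ReflTransGen.tail h ⟨ha, hq⟩

/-- chains and antichains -/
theorem chain_or_antichain {ι : Type*} [DecidableEq ι] (lt : ι → ι → Prop) (b : ℕ) :
    ∀ (a : ℕ) (J : Finset ι), (∀ x ∈ J, ∀ y ∈ J, ∀ z ∈ J, lt x y → lt y z → lt x z) →
      a * b < J.card →
      (∃ f : ℕ → ι, (∀ i, i ≤ a → f i ∈ J) ∧ ∀ i j, i < j → j ≤ a → lt (f i) (f j)) ∨
      (∃ K ⊆ J, K.card = b + 1 ∧ ∀ x ∈ K, ∀ y ∈ K, ¬ lt x y) := by
  classical
  intro a
  induction a with
  | zero =>
    intro J _ hJ
    have h0 : 0 < J.card := by omega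
    obtain ⟨x, hx⟩ := Finset.card_pos.1 h0
    exact Or.inl ⟨fun _ => x, fun _ _ => hx, fun i j h1 h2 => by omega⟩
  | succ a ih =>
    intro J htr hJ
    set M := J.filter fun x => ∀ y ∈ J, ¬ lt y x with hM
    by_cases hb : b + 1 ≤ M.card
    · obtain ⟨K, hK, hKc⟩ := Finset.exists_subset_card_eq hb
      refine Or.inr ⟨K, hK.trans (Finset.filter_subset _ _), hKc, ?_⟩
      intro x hx y hy
      have h1 := (Finset.mem_filter.1 (hK hx)).1
      have h2 := (Finset.mem_filter.1 (hK hy)).2
      exact h2 x h1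
    · have h1 : J.card ≤ (J \ M).card + M.card := by
        have := Finset.le_card_sdiff M J
        omega
      have h2 : a * b < (J \ M).card := by
        have : (a + 1) * b = a * b + b := by ring
        omega
      rcases ih (J \ M) (fun x hx y hy z hz => htr x (Finset.mem_sdiff.1 hx).1 y
          (Finset.mem_sdiff.1 hy).1 z (Finset.mem_sdiff.1 hz).1) h2 with ⟨f, hf, hlt⟩ | ⟨K, hK, h⟩
      · have hf0 := hf 0 (Nat.zero_le _)
        rw [Finset.mem_sdiff, hM, Finset.mem_filter] at hf0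
        have h3 : ∃ y ∈ J, lt y (f 0) := by
          by_contra hcon
          push Not at hcon
          exact hf0.2 ⟨hf0.1, hcon⟩
        obtain ⟨y, hyJ, hy⟩ := h3
        have hfJ : ∀ i, i ≤ a → f i ∈ J := fun i hi => (Finset.mem_sdiff.1 (hf i hi)).1
        refine Or.inl ⟨fun i => if i = 0 then y else f (i - 1), ?_, ?_⟩
        · intro i hi
          by_cases h0 : i = 0
          · simp only [h0, if_true]; exact hyJ
          · simp only [h0, if_false]; exact hfJ _ (by omega)
        · intro i j hij hj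
          have hj0 : j ≠ 0 := by omega
          by_cases h0 : i = 0
          · simp only [h0, hj0, if_true, if_false]
            by_cases hj1 : j = 1
            · simpa [hj1] using hy
            · exact htr y hyJ (f 0) (hfJ 0 (Nat.zero_le _)) (f (j - 1)) (hfJ _ (by omega)) hy
                (hlt 0 (j - 1) (by omega) (by omega))
          · simp only [h0, hj0, if_false]
            exact hlt (i - 1) (j - 1) (by omega) (by omega)
      · exact Or.inr ⟨K, hK.trans Finset.sdiff_subset, h⟩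

/-- Disjoint connected sets with base points and separating vertices. -/
structure Fam (G : SimpleGraph V) (s : Set V) (ι : Type) where
  A : ι → Set V
  c : ι → V
  mem : ∀ l, c l ∈ A l
  conn : ∀ l, Conn G (A l)
  disj : ∀ l m, l ≠ m → Disjoint (A l) (A m)
  sub : ∀ l, A l ⊆ s
  sep : ∀ a b d, a ≠ b → a ≠ d → b ≠ d →
    ∃ v, (v ≠ c a → v ≠ c b → ¬ R G (s \ {v}) (c a) (c b)) ∧
      (v ≠ c a → v ≠ c d → ¬ R G (s \ {v}) (c a) (c d)) ∧
      (v ≠ c b → v ≠ c d → ¬ R G (s \ {v}) (c b) (c d))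

namespace Fam

variable {s : Set V} {ι : Type} (F : Fam G s ι)

/-- `A a` does not separate `c x` from `c y` -/
def T (a x y : ι) : Prop := R G (s \ F.A a) (F.c x) (F.c y)

theorem notMem {a x : ι} (h : x ≠ a) {v : V} (hv : v ∈ F.A x) : v ∉ F.A a :=
  Set.disjoint_left.1 (F.disj x a h) hv

theorem cmem {a x : ι} (h : x ≠ a) : F.c x ∈ s \ F.A a :=
  ⟨F.sub x (F.mem x), F.notMem h (F.mem x)⟩

theorem subs {a x : ι} (h : x ≠ a) : F.A x ⊆ s \ F.A a :=
  fun _ hv => ⟨F.sub x hv, F.notMem h hv⟩

variable {F}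

theorem T.symm {a x y : ι} (hx : x ≠ a) (h : F.T a x y) : F.T a y x := R.symm (F.cmem hx) h

theorem T.trans {a x y z : ι} (h1 : F.T a x y) (h2 : F.T a y z) : F.T a x z := R.trans h1 h2

variable (F)

/-- first hit -/
theorem Y {a b x : ι} (hab : a ≠ b) (h : R G s (F.c x) (F.c a)) : F.T b x a ∨ F.T a x b := by
  rcases h.first_hit (F.A a ∪ F.A b) with h | ⟨p, q, h1, h2, h3, h4⟩
  · left
    exact R.mono (Set.sdiff_subset_sdiff_right Set.subset_union_right) h
  · rcases h3 with h3 | h3
    · left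
      have h5 : R G (s \ F.A b) (F.c x) p :=
        R.mono (Set.sdiff_subset_sdiff_right Set.subset_union_right) h1
      have h6 := h5.step h2 ⟨h4, F.notMem hab h3⟩
      exact h6.trans (R.mono (F.subs hab) ((F.conn a).2 q h3 _ (F.mem a)))
    · right
      have h5 : R G (s \ F.A a) (F.c x) p :=
        R.mono (Set.sdiff_subset_sdiff_right Set.subset_union_left) h1
      have h6 := h5.step h2 ⟨h4, F.notMem hab.symm h3⟩
      exact h6.trans (R.mono (F.subs hab.symm) ((F.conn b).2 q h3 _ (F.mem b)))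

theorem Z {a b r d : ι} (hab : a ≠ b) (h : F.T a r d) (hn : ¬ F.T b r d) : F.T a r b := by
  rcases R.first_hit h (F.A b) with h | ⟨p, q, h1, h2, h3, h4⟩
  · exact absurd (R.mono (Set.sdiff_subset_sdiff_left Set.sdiff_subset) h) hn
  · have h5 : R G (s \ F.A a) (F.c r) p := R.mono Set.sdiff_subset h1
    have h6 := h5.step h2 h4
    exact h6.trans (R.mono (F.subs hab.symm) ((F.conn b).2 q h3 _ (F.mem b)))

theorem reach_sep {b : ι} {x v : V} (hv : v ∉ F.A b) (h : R G s x (F.c b))
    (hn : ¬ R G (s \ {v}) x (F.c b)) : R G (s \ F.A b) x v := by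
  obtain ⟨hvs, p, h1, h2⟩ := h.hit hn
  have hsub : F.A b ⊆ s \ {v} := by
    intro y hy
    refine ⟨F.sub b hy, ?_⟩
    intro e
    rw [Set.mem_singleton_iff] at e
    subst e
    exact hv hy
  rcases h1.first_hit (F.A b) with h3 | ⟨p', q, h3, h4, h5, h6⟩
  · exact (R.mono (Set.sdiff_subset_sdiff_left Set.sdiff_subset) h3).step h2 ⟨hvs, hv⟩
  · exfalso
    apply hn
    have h7 : R G (s \ {v}) x p' := R.mono Set.sdiff_subset h3
    exact (h7.step h4 h6).trans (R.mono hsub ((F.conn b).2 q h5 _ (F.mem b)))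

theorem mono_sing {a x y : ι} {v : V} (hv : v ∈ F.A a) (h : F.T a x y) :
    R G (s \ {v}) (F.c x) (F.c y) := by
  refine R.mono (Set.sdiff_subset_sdiff_right ?_) h
  intro u hu
  rw [Set.mem_singleton_iff] at hu
  subst hu
  exact hv

theorem ne_c {a x : ι} (h : x ≠ a) {v : V} (hv : v ∈ F.A a) : v ≠ F.c x := by
  rintro rfl
  exact F.notMem h (F.mem x) hv

/-- the separating vertex of a chain of three sets lies in the middle one -/
theorem mid {a b d : ι} (hab : a ≠ b) (had : a ≠ d) (hbd : b ≠ d)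
    (h1 : R G s (F.c a) (F.c b)) (h2 : R G s (F.c d) (F.c b))
    (t1 : F.T d a b) (t2 : F.T a b d) (t3 : ¬ F.T b a d) :
    ∃ v ∈ F.A b, ¬ R G (s \ {v}) (F.c a) (F.c d) := by
  obtain ⟨v, sab, sad, sbd⟩ := F.sep a b d hab had hbd
  by_cases hb : v ∈ F.A b
  · exact ⟨v, hb, sad (F.ne_c hab hb) (F.ne_c hbd.symm hb)⟩
  · exfalso
    by_cases ha : v ∈ F.A a
    · exact sbd (F.ne_c hab.symm ha) (F.ne_c had.symm ha) (F.mono_sing ha t2)
    by_cases hd : v ∈ F.A d
    · exact sab (F.ne_c had hd) (F.ne_c hbd hd) (F.mono_sing hd t1)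
    have na : v ≠ F.c a := fun e => ha (e ▸ F.mem a)
    have nb : v ≠ F.c b := fun e => hb (e ▸ F.mem b)
    have nd : v ≠ F.c d := fun e => hd (e ▸ F.mem d)
    have r1 : R G (s \ F.A b) (F.c a) v := F.reach_sep hb h1 (sab na nb)
    have r2 : R G (s \ F.A b) (F.c d) v := by
      refine F.reach_sep hb h2 ?_
      intro h
      refine sbd nb nd (R.symm ?_ h)
      exact ⟨F.sub d (F.mem d), fun e => nd e.symm⟩
    exact t3 (r1.trans (R.symm (F.cmem hbd.symm) r2))

/-- the antichain case: isolating vertices -/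
theorem isolate [Finite V] (J : Finset ι) (hJ : ∀ a ∈ J, ∀ b ∈ J, R G s (F.c a) (F.c b))
    (hT : ∀ b ∈ J, ∀ a ∈ J, ∀ d ∈ J, a ≠ b → d ≠ b → F.T b a d) (a : ι) (ha : a ∈ J)
    (h3 : ∃ b ∈ J, ∃ d ∈ J, a ≠ b ∧ a ≠ d ∧ b ≠ d) :
    ∃ v, (∀ j ∈ J, v ∉ F.A j) ∧ ∀ b ∈ J, b ≠ a → ¬ R G (s \ {v}) (F.c a) (F.c b) := by
  classical
  -- separating vertices of triples
  have key : ∀ b ∈ J, ∀ d ∈ J, a ≠ b → a ≠ d → b ≠ d → ∃ v, (∀ j ∈ J, v ∉ F.A j) ∧
      ¬ R G (s \ {v}) (F.c a) (F.c b) ∧ ¬ R G (s \ {v}) (F.c a) (F.c d) := by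
    intro b hb d hd hab had hbd
    obtain ⟨v, sab, sad, sbd⟩ := F.sep a b d hab had hbd
    have hv : ∀ j ∈ J, v ∉ F.A j := by
      intro j hj hvj
      by_cases hja : j = a
      · subst hja
        exact sbd (F.ne_c hab.symm hvj) (F.ne_c had.symm hvj)
          (F.mono_sing hvj (hT j hj b hb d hd hab.symm had.symm))
      · by_cases hjb : j = b
        · subst hjb
          exact sad (F.ne_c hab hvj) (F.ne_c hbd.symm hvj)
            (F.mono_sing hvj (hT j hj a ha d hd hab hbd.symm))
        · exact sab (F.ne_c (Ne.symm hja) hvj) (F.ne_c (Ne.symm hjb) hvj)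
            (F.mono_sing hvj (hT j hj a ha b hb (Ne.symm hja) (Ne.symm hjb)))
    have nn : ∀ j ∈ J, v ≠ F.c j := fun j hj e => hv j hj (e ▸ F.mem j)
    exact ⟨v, hv, sab (nn a ha) (nn b hb), sad (nn a ha) (nn d hd)⟩
  set P : Set V := {v | (∀ j ∈ J, v ∉ F.A j) ∧
    ∃ d ∈ J, d ≠ a ∧ ¬ R G (s \ {v}) (F.c a) (F.c d)} with hP
  have hPne : P.Nonempty := by
    obtain ⟨b, hb, d, hd, hab, had, hbd⟩ := h3
    obtain ⟨v, hv1, hv2, hv3⟩ := key b hb d hd hab had hbd
    exact ⟨v, hv1, b, hb, hab.symm, hv2⟩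
  obtain ⟨v, hvP, hmin⟩ := Set.exists_min_image P
    (fun v => (J.filter fun j => R G (s \ {v}) (F.c a) (F.c j)).card) (Set.toFinite P) hPne
  refine ⟨v, hvP.1, ?_⟩
  intro b hb hba hr
  obtain ⟨hvJ, d, hd, hda, hsd⟩ := hvP
  have hbd : b ≠ d := fun e => hsd (e ▸ hr)
  obtain ⟨v', hv'J, hv'b, hv'd⟩ := key b hb d hd hba.symm hda.symm hbd
  have memv : ∀ j ∈ J, ∀ u, (∀ j ∈ J, u ∉ F.A j) → F.c j ∈ s \ {u} := by
    intro j hj u hu
    refine ⟨F.sub j (F.mem j), ?_⟩
    intro e
    rw [Set.mem_singleton_iff] at e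
    exact hu j hj (e ▸ F.mem j)
  have hne : v ≠ v' := by
    rintro rfl
    exact hv'b hr
  -- `v'` is reached from `c a` in `s \ {v}`
  have hav' : R G (s \ {v}) (F.c a) v' := by
    rcases hr.first_hit {v'} with h | ⟨p, q, h1, h2, h4, h5⟩
    · exact absurd (R.mono (Set.sdiff_subset_sdiff_left Set.sdiff_subset) h) hv'b
    · rw [Set.mem_singleton_iff] at h4
      subst h4
      exact (R.mono Set.sdiff_subset h1).step h2 h5
  have hsd' : ¬ R G (s \ {v}) (F.c d) (F.c a) := fun h => hsd (R.symm (memv d hd v hvJ) h)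
  obtain ⟨hvs, p, hp1, hp2⟩ := (hJ d hd a ha).hit hsd'
  have hdv : R G (s \ {v'}) (F.c d) v := by
    rcases hp1.first_hit {v'} with h | ⟨p', q, h1, h2, h4, h5⟩
    · exact (R.mono (Set.sdiff_subset_sdiff_left Set.sdiff_subset) h).step hp2 ⟨hvs, hne⟩
    · rw [Set.mem_singleton_iff] at h4
      subst h4
      exfalso
      have h6 : R G (s \ {v}) (F.c d) q := (R.mono Set.sdiff_subset h1).step h2 h5
      exact hsd (hav'.trans (R.symm (memv d hd v hvJ) h6))
  have hsub : ∀ y, R G (s \ {v'}) (F.c a) y → R G (s \ {v}) (F.c a) y := by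
    intro y hy
    rcases hy.first_hit {v} with h | ⟨p', q, h1, h2, h4, h5⟩
    · exact R.mono (Set.sdiff_subset_sdiff_left Set.sdiff_subset) h
    · rw [Set.mem_singleton_iff] at h4
      subst h4
      exfalso
      have h6 : R G (s \ {v'}) (F.c a) q := (R.mono Set.sdiff_subset h1).step h2 h5
      exact hv'd (h6.trans (R.symm (memv d hd v' hv'J) hdv))
  have hlt : (J.filter fun j => R G (s \ {v'}) (F.c a) (F.c j)).card <
      (J.filter fun j => R G (s \ {v}) (F.c a) (F.c j)).card := by
    apply Finset.card_lt_card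
    refine ⟨?_, ?_⟩
    · intro j hj
      rw [Finset.mem_filter] at hj ⊢
      exact ⟨hj.1, hsub _ hj.2⟩
    · intro h
      have := h (Finset.mem_filter.2 ⟨hb, hr⟩)
      exact hv'b (Finset.mem_filter.1 this).2
  have hv'P : v' ∈ P := ⟨hv'J, d, hd, hda, hv'd⟩
  exact absurd (hmin v' hv'P) (not_le.2 hlt)

end Fam

theorem nbr_comp_ncard {z w : V} (X : Set V) (x y c : V) (hX : X ⊆ {x, y}) :
    (nbr G (comp G (({z, w} : Set V)ᶜ \ X) c)).ncard ≤ 4 := by
  have hsub : nbr G (comp G (({z, w} : Set V)ᶜ \ X) c) ⊆ {z, w, x, y} := by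
    rintro v ⟨hv, a, ha, hav⟩
    by_contra hn
    simp only [Set.mem_insert_iff, Set.mem_singleton_iff, not_or] at hn
    apply hv
    refine comp_closed ha hav ⟨?_, ?_⟩
    · rintro (h | h)
      · exact hn.1 h
      · exact hn.2.1 h
    · intro h
      rcases hX h with h | h
      · exact hn.2.2.1 h
      · exact hn.2.2.2 h
  have hfin : ({z, w, x, y} : Set V).Finite := Set.toFinite _
  refine (Set.ncard_le_ncard hsub hfin).trans ?_
  have h1 := Set.ncard_insert_le z ({w, x, y} : Set V)
  have h2 := Set.ncard_insert_le w ({x, y} : Set V)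
  have h3 := Set.ncard_insert_le x ({y} : Set V)
  have h4 := Set.ncard_singleton y
  omega

theorem good_regions [Finite V] (hG : ¬ HasCompleteMinor G 5) {z w : V} (hzw : G.Adj z w)
    (A : Fin 2000 → Set V) (hA : ∀ l, Conn G (A l)) (hd : ∀ l m, l ≠ m → Disjoint (A l) (A m))
    (hz : ∀ l, z ∉ A l) (hw : ∀ l, w ∉ A l) (hc : ∀ l, ∃ c ∈ A l, G.Adj c z ∧ G.Adj c w) :
    ∃ (f : Fin 10 → Fin 2000) (D : Fin 10 → Set V), Function.Injective f ∧
      (∀ i, A (f i) ⊆ D i) ∧ (∀ i, Conn G (D i)) ∧ (∀ i j, i ≠ j → Disjoint (D i) (D j)) ∧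
      (∀ i, z ∉ D i ∧ w ∉ D i) ∧ (∀ i, (nbr G (D i)).ncard ≤ 4) := by
  classical
  choose c hcA hcz hcw using hc
  set s : Set V := ({z, w} : Set V)ᶜ with hs
  have hcne : ∀ a b, a ≠ b → c a ≠ c b := by
    intro a b hab e
    exact Set.disjoint_left.1 (hd a b hab) (hcA a) (e ▸ hcA b)
  let F : Fam G s (Fin 2000) :=
    { A := A
      c := c
      mem := hcA
      conn := hA
      disj := hd
      sub := by
        intro l v hv
        rintro (h | h)
        · exact hz l (h ▸ hv)
        · exact hw l ((Set.mem_singleton_iff.1 h) ▸ hv)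
      sep := by
        intro a b d hab had hbd
        exact exists_separator hG hzw (hcne a d had) (hcne b d hbd) (hcz a).symm (hcz b).symm
          (hcz d).symm (hcw a).symm (hcw b).symm (hcw d).symm }
  have hcs : ∀ l, c l ∈ s := fun l => F.sub l (hcA l)
  -- the general shape of the regions
  have zw_notMem : ∀ (X : Set V) (x : V), z ∉ comp G (s \ X) x ∧ w ∉ comp G (s \ X) x := by
    intro X x
    refine ⟨fun h => ?_, fun h => ?_⟩
    · exact h.1.1 (Or.inl rfl)
    · exact h.1.1 (Or.inr rfl)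
  have A_sub : ∀ (X : Set V) (l : Fin 2000), (∀ v ∈ X, v ∉ A l) → A l ⊆ comp G (s \ X) (c l) := by
    intro X l hX
    refine (hA l).subset_comp ?_ (hcA l)
    intro v hv
    exact ⟨F.sub l hv, fun h => hX v h hv⟩
  -- a maximal set of indices in different components
  obtain ⟨K, hKP, hKmax⟩ := Finset.exists_max_image
    ((Finset.univ : Finset (Finset (Fin 2000))).filter
      fun K => ∀ a ∈ K, ∀ b ∈ K, a ≠ b → ¬ R G s (c a) (c b)) Finset.card
    ⟨∅, by simp⟩
  rw [Finset.mem_filter] at hKP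
  by_cases hK10 : 10 ≤ K.card
  · -- ten components
    obtain ⟨L, hLK, hLc⟩ := Finset.exists_subset_card_eq hK10
    let e := (Finset.equivFinOfCardEq hLc).symm
    have hne : ∀ i j, i ≠ j → ¬ R G s (c (e i)) (c (e j)) := by
      intro i j hij
      refine hKP.2 _ (hLK (e i).2) _ (hLK (e j).2) ?_
      intro h
      exact hij (e.injective (Subtype.ext h))
    refine ⟨fun i => e i, fun i => comp G (s \ ∅) (c (e i)), ?_, ?_, ?_, ?_, ?_, ?_⟩
    · intro i j h
      exact e.injective (Subtype.ext h)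
    · intro i
      exact A_sub ∅ _ (by simp)
    · intro i
      apply conn_comp
      rw [Set.sdiff_empty]
      exact hcs _
    · intro i j hij
      rw [Set.disjoint_left]
      intro x hx hy
      rw [Set.sdiff_empty] at hx hy
      exact hne i j hij (hx.2.trans (R.symm (hcs _) hy.2))
    · intro i
      exact zw_notMem _ _
    · intro i
      exact nbr_comp_ncard ∅ z z _ (Set.empty_subset _)
  -- one component with many indices
  have hrep : ∀ l : Fin 2000, ∃ m ∈ K, R G s (c m) (c l) := by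
    intro l
    by_contra hcon
    push Not at hcon
    have hlK : l ∉ K := fun h => hcon l h ReflTransGen.refl
    have hins : insert l K ∈ ((Finset.univ : Finset (Finset (Fin 2000))).filter
      fun K => ∀ a ∈ K, ∀ b ∈ K, a ≠ b → ¬ R G s (c a) (c b)) := by
      rw [Finset.mem_filter]
      refine ⟨Finset.mem_univ _, ?_⟩
      intro a ha b hb hab
      rw [Finset.mem_insert] at ha hb
      rcases ha with rfl | ha <;> rcases hb with rfl | hb
      · exact absurd rfl hab
      · exact fun h => hcon b hb (R.symm (hcs _) h)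
      · exact hcon a ha
      · exact hKP.2 a ha b hb hab
    have := hKmax _ hins
    rw [Finset.card_insert_of_notMem hlK] at this
    omega
  choose rep hrepK hrep using hrep
  obtain ⟨m, hmK, hm⟩ := Finset.exists_lt_card_fiber_of_mul_lt_card_of_maps_to
    (s := (Finset.univ : Finset (Fin 2000))) (t := K) (f := rep) (n := 222)
    (fun l _ => hrepK l) (by
      rw [Finset.card_univ, Fintype.card_fin]
      omega)
  set J0 := (Finset.univ : Finset (Fin 2000)).filter fun x => rep x = m with hJ0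
  have hJ0R : ∀ a ∈ J0, ∀ b ∈ J0, R G s (c a) (c b) := by
    intro a ha b hb
    rw [hJ0, Finset.mem_filter] at ha hb
    have h1 := hrep a
    have h2 := hrep b
    rw [ha.2] at h1
    rw [hb.2] at h2
    exact (R.symm (hcs m) h1).trans h2
  obtain ⟨r, hr⟩ : J0.Nonempty := Finset.card_pos.1 (by omega)
  set J1 := J0.erase r with hJ1
  have hJ1c : 222 ≤ J1.card := by
    rw [hJ1, Finset.card_erase_of_mem hr]
    omega
  have hJ1R : ∀ a ∈ J1, a ≠ r ∧ a ∈ J0 := fun a ha => Finset.mem_erase.1 ha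
  let lt : Fin 2000 → Fin 2000 → Prop := fun b d => b ≠ d ∧ ¬ F.T b r d
  have hYr : ∀ a ∈ J1, ∀ b, a ≠ b → F.T b r a ∨ F.T a r b := by
    intro a ha b hab
    exact F.Y hab (hJ0R r hr a (hJ1R a ha).2)
  have htr : ∀ x ∈ J1, ∀ y ∈ J1, ∀ z ∈ J1, lt x y → lt y z → lt x z := by
    intro x hx y hy z hz h1 h2
    refine ⟨?_, ?_⟩
    · rintro rfl
      rcases hYr x hx y h1.1 with h | h
      · exact h2.2 h
      · exact h1.2 h
    · intro h
      exact h1.2 (F.Z h1.1 h h2.2)
  rcases chain_or_antichain lt 9 22 J1 htr (by omega) with ⟨f, hf, hlt⟩ | ⟨L, hLJ, hLc, hL⟩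
  · -- the chain
    have hfr : ∀ i, i ≤ 22 → f i ≠ r := fun i hi => (hJ1R _ (hf i hi)).1
    have hfR : ∀ i j, i ≤ 22 → j ≤ 22 → R G s (c (f i)) (c (f j)) := fun i j hi hj =>
      hJ0R _ (hJ1R _ (hf i hi)).2 _ (hJ1R _ (hf j hj)).2
    have hne : ∀ i j, i < j → j ≤ 22 → f i ≠ f j := fun i j hij hj => (hlt i j hij hj).1
    have g1 : ∀ i j, i < j → j ≤ 22 → F.T (f j) r (f i) := by
      intro i j hij hj
      rcases hYr (f i) (hf i (by omega)) (f j) (hne i j hij hj) with h | h
      · exact h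
      · exact absurd h (hlt i j hij hj).2
    have g2 : ∀ i j k, i < j → j < k → k ≤ 22 → ¬ F.T (f j) (f i) (f k) := by
      intro i j k hij hjk hk h
      exact (hlt j k hjk hk).2 ((g1 i j hij (by omega)).trans h)
    have g3 : ∀ i j k, i < j → j < k → k ≤ 22 → F.T (f k) (f i) (f j) := by
      intro i j k hij hjk hk
      exact ((g1 i k (by omega) hk).symm (hfr k hk).symm).trans (g1 j k hjk hk)
    have g4 : ∀ i j k, i < j → j < k → k ≤ 22 → F.T (f i) (f j) (f k) := by
      intro i j k hij hjk hk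
      rcases F.Y (hne i j hij (by omega)) (hfR k i hk (by omega)) with h | h
      · exact absurd (h.symm (hne j k hjk hk).symm) (g2 i j k hij hjk hk)
      · exact h.symm (hne i k (by omega) hk).symm
    have hmid : ∀ m, ∃ v, 1 ≤ m → m ≤ 21 → v ∈ A (f m) ∧
        ¬ R G (s \ {v}) (c (f (m - 1))) (c (f (m + 1))) := by
      intro m
      by_cases hm : 1 ≤ m ∧ m ≤ 21
      · obtain ⟨hm1, hm2⟩ := hm
        obtain ⟨v, hv1, hv2⟩ := F.mid (hne (m - 1) m (by omega) (by omega))
          (hne (m - 1) (m + 1) (by omega) (by omega)) (hne m (m + 1) (by omega) (by omega))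
          (hfR _ _ (by omega) (by omega)) (hfR _ _ (by omega) (by omega))
          (g3 (m - 1) m (m + 1) (by omega) (by omega) (by omega))
          (g4 (m - 1) m (m + 1) (by omega) (by omega) (by omega))
          (g2 (m - 1) m (m + 1) (by omega) (by omega) (by omega))
        exact ⟨v, fun _ _ => ⟨hv1, hv2⟩⟩
      · exact ⟨z, fun h1 h2 => absurd ⟨h1, h2⟩ hm⟩
    choose v hv using hmid
    -- membership
    have hneq : ∀ i j, i ≠ j → i ≤ 22 → j ≤ 22 → f i ≠ f j := by
      intro i j hij hi hj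
      rcases lt_or_gt_of_ne hij with h | h
      · exact hne i j h hj
      · exact (hne j i h hi).symm
    have hsub : ∀ m i, 1 ≤ m → m ≤ 21 → i ≤ 22 → i ≠ m → A (f i) ⊆ s \ {v m} := by
      intro m i hm1 hm2 hi him u hu
      refine ⟨F.sub _ hu, ?_⟩
      intro e
      rw [Set.mem_singleton_iff] at e
      subst e
      exact F.notMem (hneq i m him hi (by omega)) hu (hv m hm1 hm2).1
    have hsep : ∀ m i k, 1 ≤ m → m ≤ 21 → i < m → m < k → k ≤ 22 →
        ¬ R G (s \ {v m}) (c (f i)) (c (f k)) := by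
      intro m i k hm1 hm2 him hmk hk h
      obtain ⟨hvm, hns⟩ := hv m hm1 hm2
      apply hns
      have h1 : R G (s \ {v m}) (c (f (m - 1))) (c (f i)) := by
        by_cases hi : i = m - 1
        · rw [hi]; exact ReflTransGen.refl
        · have := F.mono_sing hvm (g3 i (m - 1) m (by omega) (by omega) (by omega))
          exact R.symm (hsub m i hm1 hm2 (by omega) (by omega) (hcA _)) this
      have h2 : R G (s \ {v m}) (c (f k)) (c (f (m + 1))) := by
        by_cases hi : k = m + 1
        · rw [hi]; exact ReflTransGen.refl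
        · have := F.mono_sing hvm (g4 m (m + 1) k (by omega) (by omega) (by omega))
          exact R.symm (hsub m (m + 1) hm1 hm2 (by omega) (by omega) (hcA _)) this
      exact (h1.trans h).trans h2
    -- the regions
    let D : ℕ → Set V := fun j => comp G (s \ {v (j - 1), v (j + 1)}) (c (f j))
    have hAX : ∀ j, 2 ≤ j → j ≤ 20 → ∀ u ∈ ({v (j - 1), v (j + 1)} : Set V), u ∉ A (f j) := by
      intro j hj1 hj2 u hu huA
      rcases hu with h | h
      · exact (hsub (j - 1) j (by omega) (by omega) (by omega) (by omega) huA).2 h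
      · exact (hsub (j + 1) j (by omega) (by omega) (by omega) (by omega) huA).2 h
    have hDdisj : ∀ j k, 2 ≤ j → j + 2 ≤ k → k ≤ 20 → (k = j + 2 ∨ j + 4 ≤ k) →
        Disjoint (D j) (D k) := by
      intro j k hj hjk hk hcase
      have hckD : c (f k) ∈ s \ {v (k - 1), v (k + 1)} :=
        ⟨hcs _, fun h => hAX k (by omega) hk _ h (hcA _)⟩
      have hDk : Conn G (D k) := conn_comp hckD
      have hvD : v (j + 1) ∉ D k := by
        intro h
        rcases hcase with rfl | hcase
        · apply h.1.2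
          left
          congr 1
        · have h1 : R G (s \ {v (k - 1)}) (c (f k)) (v (j + 1)) := by
            refine R.mono (Set.sdiff_subset_sdiff_right ?_) h.2
            intro u hu
            left
            exact hu
          have h2 : R G (s \ {v (k - 1)}) (v (j + 1)) (c (f (j + 1))) :=
            R.mono (hsub (k - 1) (j + 1) (by omega) (by omega) (by omega) (by omega))
              ((hA (f (j + 1))).2 _ (hv (j + 1) (by omega) (by omega)).1 _ (hcA _))
          refine hsep (k - 1) (j + 1) k (by omega) (by omega) (by omega) (by omega) (by omega) ?_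
          exact R.symm (hsub (k - 1) k (by omega) (by omega) (by omega) (by omega) (hcA _))
            (h1.trans h2)
      rw [Set.disjoint_left]
      intro x hxj hxk
      apply hsep (j + 1) j k (by omega) (by omega) (by omega) (by omega) (by omega)
      have h1 : R G (s \ {v (j + 1)}) (c (f j)) x := by
        refine R.mono (Set.sdiff_subset_sdiff_right ?_) hxj.2
        intro u hu
        right
        exact hu
      have h2 : R G (s \ {v (j + 1)}) x (c (f k)) := by
        refine R.mono ?_ (hDk.2 x hxk _ (mem_comp_self hckD))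
        intro u hu
        refine ⟨hu.1.1, ?_⟩
        intro e
        rw [Set.mem_singleton_iff] at e
        exact hvD (e ▸ hu)
      exact h1.trans h2
    refine ⟨fun i => f (2 * i.1 + 2), fun i => D (2 * i.1 + 2), ?_, ?_, ?_, ?_, ?_, ?_⟩
    · intro i j hij
      by_contra hne'
      have h1 : i.1 ≠ j.1 := fun h => hne' (Fin.ext h)
      have h2 := i.2
      have h3 := j.2
      exact hneq (2 * i.1 + 2) (2 * j.1 + 2) (by omega) (by omega) (by omega) hij
    · intro i
      have h2 := i.2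
      exact A_sub _ _ (hAX _ (by omega) (by omega))
    · intro i
      have h2 := i.2
      exact conn_comp ⟨hcs _, fun h => hAX (2 * i.1 + 2) (by omega) (by omega) _ h (hcA _)⟩
    · intro i j hij
      have h1 : i.1 ≠ j.1 := fun h => hij (Fin.ext h)
      have h2 := i.2
      have h3 := j.2
      rcases lt_or_gt_of_ne h1 with h | h
      · exact hDdisj _ _ (by omega) (by omega) (by omega) (by omega)
      · exact (hDdisj _ _ (by omega) (by omega) (by omega) (by omega)).symm
    · intro i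
      exact zw_notMem _ _
    · intro i
      exact nbr_comp_ncard _ _ _ _ subset_rfl
  · -- the antichain
    have hLr : ∀ a ∈ L, a ≠ r := fun a ha => (hJ1R a (hLJ ha)).1
    have hLR : ∀ a ∈ L, ∀ b ∈ L, R G s (F.c a) (F.c b) := fun a ha b hb =>
      hJ0R a (hJ1R a (hLJ ha)).2 b (hJ1R b (hLJ hb)).2
    have hTr : ∀ b ∈ L, ∀ d ∈ L, b ≠ d → F.T b r d := by
      intro b hb d hd hbd
      by_contra h
      exact hL b hb d hd ⟨hbd, h⟩
    have hT : ∀ b ∈ L, ∀ a ∈ L, ∀ d ∈ L, a ≠ b → d ≠ b → F.T b a d := by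
      intro b hb a ha d hd hab hdb
      exact ((hTr b hb a ha hab.symm).symm (hLr b hb).symm).trans (hTr b hb d hd hdb.symm)
    have hthird : ∀ a b, ∃ d ∈ L, d ≠ a ∧ d ≠ b := by
      intro a b
      by_contra hcon
      push Not at hcon
      have hsub : L ⊆ {a, b} := by
        intro d hd
        rw [Finset.mem_insert, Finset.mem_singleton]
        by_cases h : d = a
        · exact Or.inl h
        · exact Or.inr (hcon d hd h)
      have := (Finset.card_le_card hsub).trans Finset.card_le_two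
      omega
    have hiso : ∀ a, ∃ v, a ∈ L → (∀ j ∈ L, v ∉ A j) ∧
        ∀ b ∈ L, b ≠ a → ¬ R G (s \ {v}) (c a) (c b) := by
      intro a
      by_cases ha : a ∈ L
      · obtain ⟨b, hb, hba, -⟩ := hthird a a
        obtain ⟨d, hdL, hda, hdb⟩ := hthird a b
        obtain ⟨v, hv1, hv2⟩ := F.isolate L hLR hT a ha ⟨b, hb, d, hdL, hba.symm, hda.symm, hdb.symm⟩
        exact ⟨v, fun _ => ⟨hv1, hv2⟩⟩
      · exact ⟨z, fun h => absurd h ha⟩
    choose v hv using hiso
    have hcD : ∀ a ∈ L, c a ∈ s \ {v a} := by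
      intro a ha
      refine ⟨hcs _, ?_⟩
      intro e
      rw [Set.mem_singleton_iff] at e
      exact (hv a ha).1 a ha (e ▸ hcA a)
    have hvin : ∀ a ∈ L, ∀ b ∈ L, a ≠ b → ∀ x, x ∈ comp G (s \ {v a}) (c a) →
        x ∈ comp G (s \ {v b}) (c b) → v a ∈ comp G (s \ {v b}) (c b) := by
      intro a ha b hb hab x hxa hxb
      by_contra hn
      apply (hv a ha).2 b hb hab.symm
      refine hxa.2.trans ?_
      refine R.mono ?_ ((conn_comp (hcD b hb)).2 x hxb _ (mem_comp_self (hcD b hb)))
      intro u hu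
      refine ⟨hu.1.1, ?_⟩
      intro e
      rw [Set.mem_singleton_iff] at e
      exact hn (e ▸ hu)
    have hdisjL : ∀ a ∈ L, ∀ b ∈ L, a ≠ b →
        Disjoint (comp G (s \ {v a}) (c a)) (comp G (s \ {v b}) (c b)) := by
      intro a ha b hb hab
      rw [Set.disjoint_left]
      intro x hxa hxb
      have h1 := hvin a ha b hb hab x hxa hxb
      have h2 := hvin b hb a ha hab.symm x hxb hxa
      obtain ⟨d, hdL, hda, hdb⟩ := hthird a b
      have h3 : c d ∈ comp G (s \ {v a}) (c a) ∪ comp G (s \ {v b}) (c b) := by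
        refine R.closed (hLR a ha d hdL) (Or.inl (mem_comp_self (hcD a ha))) ?_
        rintro p (hp | hp) q hq hpq
        · by_cases hqv : q = v a
          · right; rw [hqv]; exact h1
          · left; exact comp_closed hp hpq ⟨hq, hqv⟩
        · by_cases hqv : q = v b
          · left; rw [hqv]; exact h2
          · right; exact comp_closed hp hpq ⟨hq, hqv⟩
      rcases h3 with h3 | h3
      · exact (hv a ha).2 d hdL hda h3.2
      · exact (hv b hb).2 d hdL hdb h3.2
    let e := (Finset.equivFinOfCardEq hLc).symm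
    refine ⟨fun i => e i, fun i => comp G (s \ {v (e i)}) (c (e i)), ?_, ?_, ?_, ?_, ?_, ?_⟩
    · intro i j h
      exact e.injective (Subtype.ext h)
    · intro i
      refine A_sub _ _ ?_
      intro u hu
      rw [Set.mem_singleton_iff] at hu
      subst hu
      exact (hv _ (e i).2).1 _ (e i).2
    · intro i
      exact conn_comp (hcD _ (e i).2)
    · intro i j hij
      refine hdisjL _ (e i).2 _ (e j).2 ?_
      intro h
      exact hij (e.injective (Subtype.ext h))
    · intro i
      exact zw_notMem _ _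
    · intro i
      exact nbr_comp_ncard _ (v (e i)) (v (e i)) _ (by simp)

end Pool.Agent.H19.UG
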