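import Pool.Agent.H19.UG.ZigCount
import Pool.Agent.H19.UG.Regions

/-! Extraction of a chain of candidate edges from a rooted pattern. -/

namespace Pool.Agent.H19.UG

variable {V : Type*} {G : SimpleGraph V}

theorem Zig.conn {Z : List V} (h : Zig G Z) : Conn G {a | a ∈ Z} := by
  induction h with
  | @base x y hxy =>
    have : ({a | a ∈ [y, x]} : Set V) = {x} ∪ {y} := by
      ext a
      simp only [Set.mem_ofPred_eq, List.mem_cons, List.not_mem_nil, or_false, Set.mem_union,
        Set.mem_singleton_iff]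
      tauto
    rw [this]
    exact (conn_singleton x).union_adj (conn_singleton y) rfl rfl hxy
  | @step t T P l h1 h2 h3 h4 ih =>
    have : ({a | a ∈ t :: T :: P :: l} : Set V) = insert t {a | a ∈ T :: P :: l} := by
      ext a
      simp only [Set.mem_ofPred_eq, Set.mem_insert_iff, List.mem_cons]
    rw [this]
    exact ih.insert (x := T) (by simp) h3.symm

theorem Has.facts {M : ℕ} {τ : List ℕ} : ∀ {x y : V} {S : Set V}, Has G M τ x y S →
    Conn G S ∧ ∃ c ∈ S, G.Adj c x ∧ G.Adj c y := by
  induction τ with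
  | nil =>
    rintro x y S ⟨c, h1, h2, rfl⟩
    exact ⟨conn_singleton c, c, rfl, h1, h2⟩
  | cons g τ ih =>
    rintro x y S ⟨z, w, L, S', _, hZ, hH, _, _, rfl⟩
    have hL : Conn G {a | a ∈ w :: z :: L} := (Zig.take hZ (by simp)).conn
    refine ⟨?_, ?_⟩
    · refine ⟨⟨w, Or.inl (by simp)⟩, ?_⟩
      have hzL : z ∈ ({a | a ∈ w :: z :: L} : Set V) := by simp
      have key : ∀ a ∈ ({a | a ∈ w :: z :: L} ∪ ⋃ i, S' i : Set V),
          R G ({a | a ∈ w :: z :: L} ∪ ⋃ i, S' i) a z ∧
          R G ({a | a ∈ w :: z :: L} ∪ ⋃ i, S' i) z a := by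
        rintro a (ha | ha)
        · exact ⟨R.mono Set.subset_union_left (hL.2 a ha z hzL),
            R.mono Set.subset_union_left (hL.2 z hzL a ha)⟩
        · obtain ⟨i, hi⟩ := Set.mem_iUnion.mp ha
          obtain ⟨hc, c, hcS, hcz, _⟩ := ih (hH i)
          have hsub : S' i ⊆ ({a | a ∈ w :: z :: L} ∪ ⋃ i, S' i : Set V) :=
            (Set.subset_iUnion S' i).trans Set.subset_union_right
          refine ⟨(R.mono hsub (hc.2 a hi c hcS)).trans (R.single hcz (Or.inl hzL)), ?_⟩
          exact (R.single hcz.symm (hsub hcS)).trans (R.mono hsub (hc.2 c hcS a hi))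
      intro a ha b hb
      exact (key a ha).1.trans (key b hb).2
    · rcases List.eq_nil_or_concat (w :: z :: L) with h | ⟨C, v, hC⟩
      · simp at h
      · rw [List.concat_eq_append] at hC
        have h1 : Zig G (C ++ v :: y :: [x]) := by
          rw [hC] at hZ
          simpa using hZ
        have h2 : Zig G (v :: y :: [x]) := Zig.of_append h1 (by simp)
        refine ⟨v, Or.inl ?_, Zig.adj_second h2, Zig.adj_head h2⟩
        rw [Set.mem_ofPred_eq, hC]
        simp

/-- reading the candidate edges recorded in `h` below `K` from the top -/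
def Chain (G : SimpleGraph V) (h : ℕ → Option (V × V)) : List ℕ → V → V → ℕ → Prop
  | [], _, _, _ => True
  | g :: τ, x, y, K => ∃ k z w, k < K ∧ h k = some (z, w) ∧
      (∀ k', k < k' → k' < K → h k' = none) ∧ g ∈ Len G x y z w ∧ Chain G h τ z w k

theorem Chain.congr {h h' : ℕ → Option (V × V)} {τ : List ℕ} : ∀ {x y : V} {K : ℕ},
    (∀ k < K, h k = h' k) → Chain G h τ x y K → Chain G h' τ x y K := by
  induction τ with
  | nil => intro x y K _ _; trivial
  | cons g τ ih =>
    rintro x y K hh ⟨k, z, w, hk, h1, h2, h3, h4⟩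
    refine ⟨k, z, w, hk, ?_, ?_, h3, ih (fun k' hk' => hh k' (hk'.trans hk)) h4⟩
    · rw [← hh k hk]; exact h1
    · intro k' hk1 hk2
      rw [← hh k' hk2]
      exact h2 k' hk1 hk2

theorem exists_chain [Finite V] (hG : ¬ HasCompleteMinor G 5) (τ : List ℕ) :
    ∀ (x y : V) (S ρ : Set V) (K : ℕ), Has G 2000 τ x y S → S ⊆ ρ → (nbr G ρ).ncard ≤ 4 →
      ρ.ncard < 2 ^ (K + 1) →
      ∃ u ∈ S, ∃ h : ℕ → Option (V × V), (∀ k e, h k = some e → k < K ∧ e ∈ Cand G u k) ∧
        Chain G h τ x y K := by
  classical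
  induction τ with
  | nil =>
    rintro x y S ρ K ⟨c, _, _, rfl⟩ _ _ _
    exact ⟨c, rfl, fun _ => none, by simp, trivial⟩
  | cons g τ ih =>
    rintro x y S ρ K ⟨z, w, L, S', hlen, hZ, hH, hdis, hav, rfl⟩ hSρ hnb hρ
    have hzw : G.Adj z w := by
      have h : Zig G (w :: z :: L) := Zig.take hZ (by simp)
      exact (Zig.adj_head h).symm
    obtain ⟨f, D, hf, hAD, hDc, hDd, hDzw, hDn⟩ := good_regions hG hzw S'
      (fun l => (hH l).facts.1) hdis (fun l h => hav l z h (by simp))
      (fun l h => hav l w h (by simp)) (fun l => (hH l).facts.2)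
    -- indices with `D i` disjoint from the neighbourhood of `ρ`
    set Bad : Finset (Fin 10) := Finset.univ.filter (fun i => ¬ Disjoint (D i) (nbr G ρ))
      with hBad
    have hBadcard : Bad.card ≤ 4 := by
      have hch : ∀ i ∈ Bad, ∃ v, v ∈ D i ∧ v ∈ nbr G ρ := by
        intro i hi
        rw [hBad, Finset.mem_filter] at hi
        exact Set.not_disjoint_iff.mp hi.2
      have : Nonempty V := ⟨z⟩
      choose! φ hφ using hch
      have hfin : (nbr G ρ).Finite := Set.toFinite _
      have h1 : Bad.card ≤ hfin.toFinset.card := by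
        apply Finset.card_le_card_of_injOn φ
        · intro i hi
          simpa using (hφ i hi).2
        · intro i hi j hj hij
          by_contra hne
          exact Set.disjoint_left.mp (hDd i j hne) (hφ i hi).1 (hij ▸ (hφ j hj).1)
      rw [← Set.ncard_eq_toFinset_card _ hfin] at h1
      exact h1.trans hnb
    have hGood : 6 ≤ (Badᶜ).card := by
      rw [Finset.card_compl, Fintype.card_fin]
      omega
    obtain ⟨E, hE, hEcard⟩ := Finset.exists_subset_card_eq hGood
    -- minimal one
    have hEne : E.Nonempty := by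
      rw [← Finset.card_pos, hEcard]; norm_num
    obtain ⟨i0, hi0, hmin⟩ := Finset.exists_min_image E (fun i => (D i).ncard) hEne
    have hDρ : ∀ i ∈ E, D i ⊆ ρ := by
      intro i hi
      have hi' : i ∉ Bad := by simpa using hE hi
      have hdis' : Disjoint (D i) (nbr G ρ) := by
        by_contra hcon
        exact hi' (by rw [hBad, Finset.mem_filter]; exact ⟨Finset.mem_univ _, hcon⟩)
      obtain ⟨a, ha⟩ := (hH (f i)).facts.1.1
      refine (hDc i).subset_of_disjoint_nbr (hAD i ha) (hSρ (Or.inr ?_)) hdis'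
      exact Set.mem_iUnion.mpr ⟨f i, ha⟩
    set k := Nat.log 2 (D i0).ncard with hk
    have hpos : (D i0).ncard ≠ 0 := ((Set.ncard_pos (Set.toFinite _)).mpr (hDc i0).1).ne'
    have hk1 : 2 ^ k ≤ (D i0).ncard := Nat.pow_log_le_self 2 hpos
    have hk2 : (D i0).ncard < 2 ^ (k + 1) := Nat.lt_pow_succ_log_self (by norm_num) _
    -- k < K
    obtain ⟨i1, hi1, hne⟩ : ∃ i1 ∈ E, i1 ≠ i0 := by
      apply Finset.exists_mem_ne
      rw [hEcard]; norm_num
    have hkK : k < K := by
      have h1 : (D i0 ∪ D i1).ncard = (D i0).ncard + (D i1).ncard :=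
        Set.ncard_union_eq (hDd i0 i1 hne.symm) (Set.toFinite _) (Set.toFinite _)
      have h2 : (D i0 ∪ D i1).ncard ≤ ρ.ncard :=
        Set.ncard_le_ncard (Set.union_subset (hDρ i0 hi0) (hDρ i1 hi1)) (Set.toFinite _)
      have h3 := hmin i1 hi1
      have h4 : 2 ^ (k + 1) < 2 ^ (K + 1) := by
        calc 2 ^ (k + 1) = 2 ^ k + 2 ^ k := by ring
          _ ≤ (D i0).ncard + (D i1).ncard := by
            have := hk1.trans h3
            omega
          _ ≤ ρ.ncard := by omega
          _ < _ := hρ
      have := (Nat.pow_lt_pow_iff_right (a := 2) (by norm_num)).mp h4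
      omega
    obtain ⟨u, hu, h, hh, hch⟩ := ih z w (S' (f i0)) (D i0) k (hH (f i0)) (hAD i0) (hDn i0) hk2
    have hnone : ∀ k', k ≤ k' → h k' = none := by
      intro k' hk'
      rcases hq : h k' with _ | e
      · rfl
      · have := (hh k' e hq).1
        omega
    have hcand : (z, w) ∈ Cand G u k := by
      have hmemz : ∀ i, z ∈ nbr G (D i) := by
        intro i
        obtain ⟨c, hc, hcz, _⟩ := (hH (f i)).facts.2
        exact ⟨(hDzw i).1, c, hAD i hc, hcz⟩
      have hmemw : ∀ i, w ∈ nbr G (D i) := by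
        intro i
        obtain ⟨c, hc, _, hcw⟩ := (hH (f i)).facts.2
        exact ⟨(hDzw i).2, c, hAD i hc, hcw⟩
      refine ⟨D i0, hDc i0, hAD i0 hu, hmemz i0, hmemw i0, hDn i0, hk2, ?_⟩
      let ψ := E.orderEmbOfFin hEcard
      refine ⟨fun i => D (ψ i), fun i => hDc _, fun i j hij => hDd _ _ ?_, fun i =>
        ⟨hmemz _, hmemw _, ?_⟩⟩
      · intro e
        exact hij (ψ.injective e)
      · exact hk1.trans (hmin _ (Finset.orderEmbOfFin_mem E hEcard i))
    refine ⟨u, Or.inr (Set.mem_iUnion.mpr ⟨f i0, hu⟩), Function.update h k (some (z, w)), ?_, ?_⟩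
    · intro k' e he
      by_cases hkk : k' = k
      · subst hkk
        rw [Function.update_self] at he
        have : (z, w) = e := by simpa using he
        rw [← this]
        exact ⟨hkK, hcand⟩
      · rw [Function.update_of_ne hkk] at he
        have := hh k' e he
        exact ⟨this.1.trans hkK, this.2⟩
    · refine ⟨k, z, w, hkK, by rw [Function.update_self], ?_, ⟨L, hlen, hZ⟩, ?_⟩
      · intro k' hk' _
        rw [Function.update_of_ne (by omega)]
        exact hnone k' hk'.le
      · refine Chain.congr ?_ hch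
        intro k' hk'
        rw [Function.update_of_ne (by omega)]

end Pool.Agent.H19.UG
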