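import Pool.Agent.H19.UG.Defs

/-! The pattern graphs are free of complete minors on four vertices. -/

namespace Pool.Agent.H19.UG

open Relation

section General

variable {V : Type*}

/-- add the edges from `k` to `a` and to `b` -/
def addV (G : SimpleGraph V) (k a b : V) : SimpleGraph V :=
  G ⊔ SimpleGraph.fromEdgeSet {s(k, a), s(k, b)}

theorem le_addV (G : SimpleGraph V) (k a b : V) : G ≤ addV G k a b := le_sup_left

theorem addV_adj {G : SimpleGraph V} {k a b : V} (hka : k ≠ a) (hkb : k ≠ b) (x y : V) :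
    (addV G k a b).Adj x y ↔
      G.Adj x y ∨ (x = k ∧ (y = a ∨ y = b)) ∨ (y = k ∧ (x = a ∨ x = b)) := by
  unfold addV
  rw [SimpleGraph.sup_adj, SimpleGraph.fromEdgeSet_adj]
  simp only [Set.mem_insert_iff, Set.mem_singleton_iff, Sym2.eq_iff]
  constructor
  · rintro (h | ⟨(⟨rfl, rfl⟩ | ⟨rfl, rfl⟩) | (⟨rfl, rfl⟩ | ⟨rfl, rfl⟩), hne⟩)
    · exact Or.inl h
    · exact Or.inr (Or.inl ⟨rfl, Or.inl rfl⟩)
    · exact Or.inr (Or.inr ⟨rfl, Or.inl rfl⟩)
    · exact Or.inr (Or.inl ⟨rfl, Or.inr rfl⟩)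
    · exact Or.inr (Or.inr ⟨rfl, Or.inr rfl⟩)
  · rintro (h | ⟨rfl, rfl | rfl⟩ | ⟨rfl, rfl | rfl⟩)
    · exact Or.inl h
    · exact Or.inr ⟨Or.inl (Or.inl ⟨rfl, rfl⟩), hka⟩
    · exact Or.inr ⟨Or.inr (Or.inl ⟨rfl, rfl⟩), hkb⟩
    · exact Or.inr ⟨Or.inl (Or.inr ⟨rfl, rfl⟩), hka.symm⟩
    · exact Or.inr ⟨Or.inr (Or.inr ⟨rfl, rfl⟩), hkb.symm⟩

/-- walks in the larger graph can be rerouted -/
theorem R_del {G : SimpleGraph V} {k a b : V} (hk : ∀ x y, G.Adj x y → x ≠ k) (hab : G.Adj a b)
    {s : Set V} {x y : V} (hxk : x ≠ k) (h : R (addV G k a b) s x y) :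
    (y ≠ k ∧ R G (s \ {k}) x y) ∨ (y = k ∧ ∃ c, (c = a ∨ c = b) ∧ R G (s \ {k}) x c) := by
  have hka : k ≠ a := (hk _ _ hab).symm
  have hkb : k ≠ b := (hk _ _ hab.symm).symm
  induction h with
  | refl => exact Or.inl ⟨hxk, ReflTransGen.refl⟩
  | @tail c d _ hcd ih =>
    rw [addV_adj hka hkb] at hcd
    obtain ⟨hcd, hds⟩ := hcd
    rcases ih with ⟨hck, hc⟩ | ⟨hck, e, he, hc⟩
    · by_cases hdk : d = k
      · right
        refine ⟨hdk, c, ?_, hc⟩
        rcases hcd with h | h | h
        · exact absurd hdk (hk _ _ h.symm)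
        · exact absurd h.1 hck
        · exact h.2
      · left
        refine ⟨hdk, hc.tail ⟨?_, hds, hdk⟩⟩
        rcases hcd with h | h | h
        · exact h
        · exact absurd h.1 hck
        · exact absurd h.1 hdk
    · left
      have hd : d = a ∨ d = b := by
        rcases hcd with h | h | h
        · exact absurd hck (hk _ _ h)
        · exact h.2
        · rcases h.2 with h2 | h2
          · exact absurd (hck.symm.trans h2) hka
          · exact absurd (hck.symm.trans h2) hkb
      have hdk : d ≠ k := by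
        rcases hd with rfl | rfl
        · exact hka.symm
        · exact hkb.symm
      refine ⟨hdk, ?_⟩
      by_cases hed : e = d
      · rw [← hed]
        exact hc
      · refine hc.tail ⟨?_, hds, hdk⟩
        rcases he with rfl | rfl <;> rcases hd with rfl | rfl
        · exact absurd rfl hed
        · exact hab
        · exact hab.symm
        · exact absurd rfl hed

theorem no4_add {G : SimpleGraph V} {k a b : V} (hk : ∀ x y, G.Adj x y → x ≠ k)
    (hab : G.Adj a b) (h4 : ¬ HasCompleteMinor G 4) : ¬ HasCompleteMinor (addV G k a b) 4 := by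
  rw [hasCompleteMinor_iff] at h4 ⊢
  rintro ⟨B, hBc, hBd, hBa⟩
  apply h4
  have hka : k ≠ a := (hk _ _ hab).symm
  have hkb : k ≠ b := (hk _ _ hab.symm).symm
  have hkadj : ∀ y, (addV G k a b).Adj k y → y = a ∨ y = b := by
    intro y hy
    rw [addV_adj hka hkb] at hy
    rcases hy with h | h | h
    · exact absurd rfl (hk _ _ h)
    · exact h.2
    · rcases h.2 with h2 | h2
      · exact absurd h2 hka
      · exact absurd h2 hkb
  have hne : ∀ i, ∃ x ∈ B i, x ≠ k := by
    intro i
    by_contra hcon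
    push Not at hcon
    have hj : ∀ j, i ≠ j → a ∈ B j ∨ b ∈ B j := by
      intro j hij
      obtain ⟨x, hx, y, hy, hxy⟩ := hBa i j hij
      rw [hcon x hx] at hxy
      rcases hkadj y hxy with rfl | rfl
      · exact Or.inl hy
      · exact Or.inr hy
    have h3 : ∀ i : Fin 4, ∃ j1 j2 j3 : Fin 4, i ≠ j1 ∧ i ≠ j2 ∧ i ≠ j3 ∧ j1 ≠ j2 ∧ j1 ≠ j3 ∧
        j2 ≠ j3 := by decide
    obtain ⟨j1, j2, j3, h1, h2, h3, h12, h13, h23⟩ := h3 i
    have d12 := Set.disjoint_left.1 (hBd j1 j2 h12)
    have d13 := Set.disjoint_left.1 (hBd j1 j3 h13)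
    have d23 := Set.disjoint_left.1 (hBd j2 j3 h23)
    rcases hj j1 h1 with e1 | e1 <;> rcases hj j2 h2 with e2 | e2 <;> rcases hj j3 h3 with e3 | e3
    · exact d12 e1 e2
    · exact d12 e1 e2
    · exact d13 e1 e3
    · exact d23 e2 e3
    · exact d23 e2 e3
    · exact d13 e1 e3
    · exact d12 e1 e2
    · exact d12 e1 e2
  -- a branch set containing `k` contains `a` or `b`
  have hc : ∀ i, k ∈ B i → ∃ c, (c = a ∨ c = b) ∧ c ∈ B i \ {k} := by
    intro i hki
    obtain ⟨x, hx, hxk⟩ := hne i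
    rcases R_del hk hab hxk ((hBc i).2 x hx k hki) with ⟨h, _⟩ | ⟨_, c, hc, hr⟩
    · exact absurd rfl h
    · exact ⟨c, hc, R.mem ⟨hx, hxk⟩ hr⟩
  have hkey : ∀ i j, i ≠ j → k ∈ B i → ∀ y ∈ B j, (addV G k a b).Adj k y →
      ∃ x ∈ B i \ {k}, ∃ y ∈ B j \ {k}, G.Adj x y := by
    intro i j hij hki y hy hky
    obtain ⟨c, hcab, hcB⟩ := hc i hki
    have hyab := hkadj y hky
    have hcy : c ≠ y := by
      rintro rfl
      exact Set.disjoint_left.1 (hBd i j hij) hcB.1 hy
    have hyk : y ≠ k := by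
      rintro rfl
      exact Set.disjoint_left.1 (hBd i j hij) hki hy
    refine ⟨c, hcB, y, ⟨hy, hyk⟩, ?_⟩
    rcases hcab with rfl | rfl <;> rcases hyab with rfl | rfl
    · exact absurd rfl hcy
    · exact hab
    · exact hab.symm
    · exact absurd rfl hcy
  refine ⟨fun i => B i \ {k}, ?_, ?_, ?_⟩
  · intro i
    obtain ⟨x, hx, hxk⟩ := hne i
    refine ⟨⟨x, hx, hxk⟩, ?_⟩
    rintro x ⟨hx, hxk⟩ y ⟨hy, hyk⟩
    rcases R_del hk hab hxk ((hBc i).2 x hx y hy) with h | h
    · exact h.2
    · exact absurd h.1 hyk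
  · intro i j hij
    exact (hBd i j hij).mono Set.sdiff_subset Set.sdiff_subset
  · intro i j hij
    obtain ⟨x, hx, y, hy, hxy⟩ := hBa i j hij
    by_cases hxk : x = k
    · subst hxk
      exact hkey i j hij hx y hy hxy
    · by_cases hyk : y = k
      · subst hyk
        obtain ⟨u, hu, v, hv, huv⟩ := hkey j i hij.symm hy x hx hxy.symm
        exact ⟨v, hv, u, hu, huv.symm⟩
      · refine ⟨x, ⟨hx, hxk⟩, y, ⟨hy, hyk⟩, ?_⟩
        rw [addV_adj hka hkb] at hxy
        rcases hxy with h | h | h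
        · exact h
        · exact absurd h.1 hxk
        · exact absurd h.1 hyk

theorem Zig.mono {G G' : SimpleGraph V} (hG : G ≤ G') {l : List V} (h : Zig G l) : Zig G' l := by
  induction h with
  | base h => exact Zig.base (hG h)
  | step _ h1 h2 h3 ih => exact Zig.step ih (hG h1) (hG h2) h3

theorem Zig.adj {G : SimpleGraph V} {T P : V} {l : List V} (h : Zig G (T :: P :: l)) :
    G.Adj T P := by
  cases h with
  | base h => exact h.symm
  | step _ _ h2 _ => exact h2

theorem Has.mono {G G' : SimpleGraph V} (hG : G ≤ G') (M : ℕ) (τ : List ℕ) :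
    ∀ (x y : V) (S : Set V), Has G M τ x y S → Has G' M τ x y S := by
  induction τ with
  | nil =>
    rintro x y S ⟨c, h1, h2, h3⟩
    exact ⟨c, hG h1, hG h2, h3⟩
  | cons g τ ih =>
    rintro x y S ⟨z, w, L, S', h1, h2, h3, h4, h5, h6⟩
    exact ⟨z, w, L, S', h1, h2.mono hG, fun i => ih _ _ _ (h3 i), h4, h5, h6⟩

end General

variable {n : ℕ}

/-- free of `K_4` minors, all edges among the first `k` vertices -/
def Valid (k : ℕ) (G : SimpleGraph (Fin n)) : Prop :=
  ¬ HasCompleteMinor G 4 ∧ ∀ x y, G.Adj x y → x.val < k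

theorem Valid.add {k : ℕ} {G : SimpleGraph (Fin n)} (h : Valid k G) (hk : k < n) {a b : Fin n}
    (hab : G.Adj a b) : Valid (k + 1) (addV G ⟨k, hk⟩ a b) := by
  have hk' : ∀ x y, G.Adj x y → x ≠ ⟨k, hk⟩ := by
    intro x y hxy hx
    have := h.2 x y hxy
    rw [hx] at this
    exact lt_irrefl _ this
  refine ⟨no4_add hk' hab h.1, ?_⟩
  intro x y hxy
  rw [addV_adj (hk' _ _ hab).symm (hk' _ _ hab.symm).symm] at hxy
  rcases hxy with hxy | ⟨hx, _⟩ | ⟨_, hx⟩
  · exact Nat.lt_succ_of_lt (h.2 x y hxy)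
  · rw [hx]
    exact Nat.lt_succ_self _
  · rcases hx with rfl | rfl
    · exact Nat.lt_succ_of_lt (h.2 _ _ hab)
    · exact Nat.lt_succ_of_lt (h.2 _ _ hab.symm)

theorem Valid.mono {k k' : ℕ} (hk : k ≤ k') {G : SimpleGraph (Fin n)} (h : Valid k G) :
    Valid k' G := ⟨h.1, fun x y hxy => (h.2 x y hxy).trans_le hk⟩

/-- growing a zigzag -/
theorem zig_build (g : ℕ) : ∀ (k : ℕ) (G : SimpleGraph (Fin n)) (x y : Fin n), Valid k G →
    G.Adj x y → k + g ≤ n → ∃ (G' : SimpleGraph (Fin n)) (N : List (Fin n)), Valid (k + g) G' ∧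
      G ≤ G' ∧ N.length = g ∧ Zig G' (N ++ [y, x]) ∧
      ∀ a : Fin n, a ∈ N ↔ k ≤ a.val ∧ a.val < k + g := by
  induction g with
  | zero =>
    intro k G x y hV hxy _
    refine ⟨G, [], hV, le_rfl, rfl, Zig.base hxy, ?_⟩
    intro a
    simp only [List.not_mem_nil, add_zero, false_iff]
    omega
  | succ g ih =>
    intro k G x y hV hxy hn
    obtain ⟨G', N, hV', hGG', hN, hZ, hmem⟩ := ih k G x y hV hxy (by omega)
    have hlt : k + g < n := by omega
    obtain ⟨T, P, l, hl⟩ : ∃ T P l, N ++ [y, x] = T :: P :: l := by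
      match N with
      | [] => exact ⟨y, x, [], rfl⟩
      | [a] => exact ⟨a, y, [x], rfl⟩
      | a :: b :: N => exact ⟨a, b, N ++ [y, x], rfl⟩
    have hTP : G'.Adj T P := by
      rw [hl] at hZ
      exact hZ.adj
    have hTk : ⟨k + g, hlt⟩ ≠ T := by
      intro h
      have := hV'.2 _ _ hTP
      rw [← h] at this
      exact lt_irrefl _ this
    have hPk : ⟨k + g, hlt⟩ ≠ P := by
      intro h
      have := hV'.2 _ _ hTP.symm
      rw [← h] at this
      exact lt_irrefl _ this
    refine ⟨addV G' ⟨k + g, hlt⟩ T P, ⟨k + g, hlt⟩ :: N, hV'.add hlt hTP,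
      hGG'.trans (le_addV _ _ _ _), by rw [List.length_cons, hN], ?_, ?_⟩
    · rw [List.cons_append, hl]
      refine Zig.step ?_ ?_ ?_ ?_
      · rw [← hl]
        exact hZ.mono (le_addV _ _ _ _)
      · rw [addV_adj hTk hPk]
        exact Or.inr (Or.inl ⟨rfl, Or.inr rfl⟩)
      · rw [addV_adj hTk hPk]
        exact Or.inr (Or.inl ⟨rfl, Or.inl rfl⟩)
      · rw [← hl, List.mem_append, hmem]
        have hx := hV.2 _ _ hxy
        have hy := hV.2 _ _ hxy.symm
        rintro (h | h)
        · exact lt_irrefl _ h.2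
        · simp only [List.mem_cons, List.not_mem_nil, or_false] at h
          rcases h with h | h
          · rw [← h] at hy
            have : k + g < k := hy
            omega
          · rw [← h] at hx
            have : k + g < k := hx
            omega
    · intro a
      rw [List.mem_cons, hmem]
      constructor
      · rintro (rfl | h)
        · constructor
          · exact Nat.le_add_right _ _
          · show k + g < k + (g + 1)
            omega
        · omega
      · intro h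
        by_cases ha : a.val = k + g
        · left
          exact Fin.ext ha
        · right
          omega

theorem size_pos (M : ℕ) (τ : List ℕ) (hτ : ∀ g ∈ τ, 2 ≤ g) : 0 < size M τ := by
  cases τ with
  | nil => exact Nat.one_pos
  | cons g τ =>
    have := hτ g List.mem_cons_self
    unfold size
    omega

theorem build (M : ℕ) (τ : List ℕ) : (∀ g ∈ τ, 2 ≤ g) → ∀ (k : ℕ) (G : SimpleGraph (Fin n))
    (a b : Fin n), Valid k G → G.Adj a b → k + size M τ ≤ n →
    ∃ G' : SimpleGraph (Fin n), Valid (k + size M τ) G' ∧ G ≤ G' ∧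
      Has G' M τ a b {v | k ≤ v.val ∧ v.val < k + size M τ} := by
  induction τ with
  | nil =>
    intro _ k G a b hV hab hn
    have hlt : k < n := by
      unfold size at hn
      omega
    have hka : ⟨k, hlt⟩ ≠ a := by
      intro h
      have := hV.2 _ _ hab
      rw [← h] at this
      exact lt_irrefl _ this
    have hkb : ⟨k, hlt⟩ ≠ b := by
      intro h
      have := hV.2 _ _ hab.symm
      rw [← h] at this
      exact lt_irrefl _ this
    refine ⟨addV G ⟨k, hlt⟩ a b, hV.add hlt hab, le_addV _ _ _ _, ⟨k, hlt⟩, ?_, ?_, ?_⟩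
    · rw [addV_adj hka hkb]
      exact Or.inr (Or.inl ⟨rfl, Or.inl rfl⟩)
    · rw [addV_adj hka hkb]
      exact Or.inr (Or.inl ⟨rfl, Or.inr rfl⟩)
    · ext v
      simp only [Set.mem_setOf_eq, Set.mem_singleton_iff, Fin.ext_iff, size]
      omega
  | cons g τ ih =>
    intro hτ k G a b hV hab hn
    have hg : 2 ≤ g := hτ g List.mem_cons_self
    have hτ' : ∀ g ∈ τ, 2 ≤ g := fun c hc => hτ c (List.mem_cons_of_mem _ hc)
    have hs : size M (g :: τ) = g + M * size M τ := rfl
    rw [hs] at hn ⊢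
    set s := size M τ with hsd
    have hspos : 0 < s := size_pos M τ hτ'
    obtain ⟨G₁, N, hV₁, hGG₁, hN, hZ, hmem⟩ := zig_build g k G a b hV hab (by omega)
    obtain ⟨w, z, L, rfl⟩ : ∃ w z L, N = w :: z :: L := by
      match N, hN with
      | [], hN => simp only [List.length_nil] at hN; omega
      | [c], hN => simp only [List.length_cons, List.length_nil] at hN; omega
      | w :: z :: L, _ => exact ⟨w, z, L, rfl⟩
    have hwz : G₁.Adj w z := hZ.adj
    have hcop : ∀ m, m ≤ M → ∃ G₂ : SimpleGraph (Fin n), Valid (k + g + m * s) G₂ ∧ G₁ ≤ G₂ ∧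
        ∀ i < m, Has G₂ M τ z w {v | k + g + i * s ≤ v.val ∧ v.val < k + g + i * s + s} := by
      intro m
      induction m with
      | zero =>
        intro _
        refine ⟨G₁, hV₁.mono (Nat.le_add_right _ _), le_rfl, ?_⟩
        intro i hi
        exact absurd hi (Nat.not_lt_zero _)
      | succ m ihm =>
        intro hm
        obtain ⟨G₂, hV₂, hG₂, hH₂⟩ := ihm (by omega)
        have hms : (m + 1) * s ≤ M * s := Nat.mul_le_mul_right _ hm
        have hms' : (m + 1) * s = m * s + s := Nat.succ_mul _ _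
        obtain ⟨G₃, hV₃, hG₃, hH₃⟩ := ih hτ' (k + g + m * s) G₂ z w hV₂ (hG₂ hwz).symm (by omega)
        refine ⟨G₃, hV₃.mono (by omega), hG₂.trans hG₃, ?_⟩
        intro i hi
        by_cases him : i = m
        · rw [him]
          exact hH₃
        · exact (hH₂ i (by omega)).mono hG₃
    obtain ⟨G₂, hV₂, hG₂, hH₂⟩ := hcop M le_rfl
    refine ⟨G₂, hV₂.mono (by omega), hGG₁.trans hG₂, z, w, L,
      fun i => {v | k + g + i.val * s ≤ v.val ∧ v.val < k + g + i.val * s + s}, hN, hZ.mono hG₂,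
      fun i => hH₂ i.val i.isLt, ?_, ?_, ?_⟩
    · intro i j hij
      rw [Set.disjoint_left]
      rintro v ⟨h1, h2⟩ ⟨h3, h4⟩
      apply hij
      apply Fin.ext
      rcases lt_trichotomy i.val j.val with h | h | h
      · exfalso
        have : (i.val + 1) * s ≤ j.val * s := Nat.mul_le_mul_right _ h
        have h5 : (i.val + 1) * s = i.val * s + s := Nat.succ_mul _ _
        omega
      · exact h
      · exfalso
        have : (j.val + 1) * s ≤ i.val * s := Nat.mul_le_mul_right _ h
        have h5 : (j.val + 1) * s = j.val * s + s := Nat.succ_mul _ _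
        omega
    · rintro i v ⟨h1, h2⟩
      rw [List.mem_append, hmem]
      have ha := hV.2 _ _ hab
      have hb := hV.2 _ _ hab.symm
      rintro (h | h)
      · omega
      · simp only [List.mem_cons, List.not_mem_nil, or_false] at h
        rcases h with rfl | rfl <;> omega
    · ext v
      simp only [Set.mem_setOf_eq, Set.mem_union, Set.mem_iUnion]
      rw [hmem]
      constructor
      · rintro ⟨h1, h2⟩
        by_cases hv : v.val < k + g
        · exact Or.inl ⟨h1, hv⟩
        · right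
          have h3 : (v.val - (k + g)) / s < M := by
            rw [Nat.div_lt_iff_lt_mul hspos]
            omega
          refine ⟨⟨(v.val - (k + g)) / s, h3⟩, ?_⟩
          have h4 : (v.val - (k + g)) / s * s ≤ v.val - (k + g) := Nat.div_mul_le_self _ _
          have h5 : v.val - (k + g) < (v.val - (k + g)) / s * s + s := by
            have := Nat.lt_div_mul_add hspos (a := v.val - (k + g))
            exact this
          show k + g + (v.val - (k + g)) / s * s ≤ v.val ∧
            v.val < k + g + (v.val - (k + g)) / s * s + s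
          omega
      · rintro (h | ⟨i, h1, h2⟩)
        · omega
        · have h3 : (i.val + 1) * s ≤ M * s := Nat.mul_le_mul_right _ i.isLt
          have h5 : (i.val + 1) * s = i.val * s + s := Nat.succ_mul _ _
          omega

theorem exists_graph (M : ℕ) (τ : List ℕ) (hτ : ∀ g ∈ τ, 2 ≤ g) (n : ℕ)
    (hn : 2 + size M τ ≤ n) :
    ∃ H : SimpleGraph (Fin n), ¬ HasCompleteMinor H 4 ∧
      ∃ (x y : Fin n) (S : Set (Fin n)), H.Adj x y ∧ x ∉ S ∧ y ∉ S ∧ Has H M τ x y S := by
  set x : Fin n := ⟨0, by omega⟩ with hx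
  set y : Fin n := ⟨1, by omega⟩ with hy
  have hxy : x ≠ y := by
    intro h
    have := congrArg Fin.val h
    simp [hx, hy] at this
  set G₀ : SimpleGraph (Fin n) := SimpleGraph.fromEdgeSet {s(x, y)} with hG₀
  have hadj : ∀ u v, G₀.Adj u v → (u = x ∧ v = y) ∨ (u = y ∧ v = x) := by
    intro u v h
    rw [hG₀, SimpleGraph.fromEdgeSet_adj] at h
    simpa only [Set.mem_singleton_iff, Sym2.eq_iff] using h.1
  have hV : Valid 2 G₀ := by
    constructor
    · rintro ⟨B, _, hBd, hBa⟩
      have hj : ∀ j : Fin 4, x ∈ B j ∨ y ∈ B j := by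
        intro j
        obtain ⟨i, hi⟩ : ∃ i : Fin 4, j ≠ i := ⟨j + 1, by
          revert j; decide⟩
        obtain ⟨u, hu, v, _, huv⟩ := hBa j i hi
        rcases hadj u v huv with ⟨rfl, _⟩ | ⟨rfl, _⟩
        · exact Or.inl hu
        · exact Or.inr hu
      have d12 := Set.disjoint_left.1 (hBd 0 1 (by decide))
      have d13 := Set.disjoint_left.1 (hBd 0 2 (by decide))
      have d23 := Set.disjoint_left.1 (hBd 1 2 (by decide))
      rcases hj 0 with e1 | e1 <;> rcases hj 1 with e2 | e2 <;> rcases hj 2 with e3 | e3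
      · exact d12 e1 e2
      · exact d12 e1 e2
      · exact d13 e1 e3
      · exact d23 e2 e3
      · exact d23 e2 e3
      · exact d13 e1 e3
      · exact d12 e1 e2
      · exact d12 e1 e2
    · intro u v h
      rcases hadj u v h with ⟨rfl, _⟩ | ⟨rfl, _⟩
      · exact Nat.zero_lt_two
      · exact Nat.one_lt_two
  have hA : G₀.Adj x y := by
    rw [hG₀, SimpleGraph.fromEdgeSet_adj]
    exact ⟨rfl, hxy⟩
  obtain ⟨G', hV', hle, hH⟩ := build M τ hτ 2 G₀ x y hV hA hn
  refine ⟨G', hV'.1, x, y, _, hle hA, ?_, ?_, hH⟩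
  · rintro ⟨h, _⟩
    have : 2 ≤ 0 := h
    omega
  · rintro ⟨h, _⟩
    have : 2 ≤ 1 := h
    omega

end Pool.Agent.H19.UG
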