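import Pool.Agent.H19.UG.Chain
import Pool.Agent.H19.UG.Candidates
import Pool.Agent.H19.UG.Construct

/-! Adversarial choice of the gap sequence and the final count. -/

namespace Pool.Agent.H19.UG

variable {V : Type*} {G : SimpleGraph V}

/-! ### transport along copies -/

theorem Zig.map {W : Type*} {H : SimpleGraph W} (f : W → V) (hf : Function.Injective f)
    (hadj : ∀ a b, H.Adj a b → G.Adj (f a) (f b)) {l : List W} (h : Zig H l) :
    Zig G (l.map f) := by
  induction h with
  | base h => exact Zig.base (hadj _ _ h)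
  | @step t T P l _ h2 h3 h4 ih =>
    refine Zig.step ih (hadj _ _ h2) (hadj _ _ h3) ?_
    intro hm
    apply h4
    have : f t ∈ (T :: P :: l).map f := by simpa using hm
    obtain ⟨a, ha, hfa⟩ := List.mem_map.mp this
    rwa [← hf hfa]

theorem Has.map {W : Type*} {H : SimpleGraph W} (f : W → V) (hf : Function.Injective f)
    (hadj : ∀ a b, H.Adj a b → G.Adj (f a) (f b)) {M : ℕ} {τ : List ℕ} :
    ∀ {x y : W} {S : Set W}, Has H M τ x y S → Has G M τ (f x) (f y) (f '' S) := by
  induction τ with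
  | nil =>
    rintro x y S ⟨c, h1, h2, rfl⟩
    exact ⟨f c, hadj _ _ h1, hadj _ _ h2, by simp⟩
  | cons g τ ih =>
    rintro x y S ⟨z, w, L, S', hlen, hZ, hH, hdis, hav, rfl⟩
    refine ⟨f z, f w, L.map f, fun i => f '' S' i, by simpa using hlen, ?_, fun i => ih (hH i),
      ?_, ?_, ?_⟩
    · simpa using hZ.map f hf hadj
    · intro i j hij
      exact (Set.disjoint_image_iff hf).mpr (hdis i j hij)
    · rintro i _ ⟨a, ha, rfl⟩ hm
      apply hav i a ha
      have : f a ∈ (w :: z :: L ++ [y, x]).map f := by simpa using hm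
      obtain ⟨b, hb, hfb⟩ := List.mem_map.mp this
      rwa [← hf hfb]
    · rw [Set.image_union, Set.image_iUnion]
      congr 1
      ext a
      simp only [Set.mem_image, Set.mem_ofPred_eq, List.mem_cons, List.mem_map]
      constructor
      · rintro ⟨b, (rfl | rfl | hb), rfl⟩
        · exact Or.inl rfl
        · exact Or.inr (Or.inl rfl)
        · exact Or.inr (Or.inr ⟨b, hb, rfl⟩)
      · rintro (rfl | rfl | ⟨b, hb, rfl⟩)
        · exact ⟨w, Or.inl rfl, rfl⟩
        · exact ⟨z, Or.inr (Or.inl rfl), rfl⟩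
        · exact ⟨b, Or.inr (Or.inr hb), rfl⟩

/-! ### choosing one gap -/

/-- ends of the gap classes -/
def tt (σ : ℕ) : ℕ → ℕ
  | 0 => 2
  | j + 1 => tt σ j + σ * 4 ^ tt σ j

theorem tt_mono (σ : ℕ) : Monotone (tt σ) := monotone_nat_of_le_succ (fun _ => Nat.le_add_right _ _)

theorem choose_gap {ι : Type*} (F : Finset ι) (Ls : ι → Set ℕ) (σ : ℕ) (hσ : 0 < σ)
    (hL : ∀ d ∈ F, ∀ g0 ∈ Ls d, (Ls d).Finite ∧ (Ls d).ncard ≤ 4 ^ (g0 + 1)) :
    ∃ g, 2 ≤ g ∧ g < tt σ σ ∧ ∀ F' : Finset ι, F' ⊆ F → (∀ d ∈ F', g ∈ Ls d) →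
      σ * F'.card ≤ 2 * F.card := by
  classical
  -- choose the class
  let A : ℕ → Finset ι := fun j =>
    F.filter (fun d => (Ls d).Nonempty ∧ tt σ j ≤ sInf (Ls d) ∧ sInf (Ls d) < tt σ (j + 1))
  have hAdis : ∀ i ∈ Finset.range σ, ∀ j ∈ Finset.range σ, i ≠ j → Disjoint (A i) (A j) := by
    intro i _ j _ hij
    rw [Finset.disjoint_left]
    intro d hd1 hd2
    simp only [A, Finset.mem_filter] at hd1 hd2
    rcases lt_or_gt_of_ne hij with h | h
    · have := tt_mono σ (Nat.succ_le_of_lt h)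
      simp only [Nat.succ_eq_add_one] at this
      omega
    · have := tt_mono σ (Nat.succ_le_of_lt h)
      simp only [Nat.succ_eq_add_one] at this
      omega
  obtain ⟨j, hj, hAj⟩ : ∃ j < σ, σ * (A j).card ≤ F.card := by
    by_contra hcon
    push Not at hcon
    have h1 : ∑ j ∈ Finset.range σ, F.card < ∑ j ∈ Finset.range σ, σ * (A j).card := by
      apply Finset.sum_lt_sum_of_nonempty
      · exact ⟨0, Finset.mem_range.mpr hσ⟩
      · intro j hj
        exact hcon j (Finset.mem_range.mp hj)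
    rw [← Finset.mul_sum, Finset.sum_const, Finset.card_range, smul_eq_mul] at h1
    have h2 : ∑ j ∈ Finset.range σ, (A j).card ≤ F.card := by
      rw [← Finset.card_biUnion hAdis]
      apply Finset.card_le_card
      intro d hd
      obtain ⟨j, _, hd⟩ := Finset.mem_biUnion.mp hd
      exact (Finset.mem_filter.mp hd).1
    have h3 := Nat.mul_le_mul_left σ h2
    omega
  -- choose the gap inside the class
  let B : Finset ι := F.filter (fun d => (Ls d).Nonempty ∧ sInf (Ls d) < tt σ j)
  have hB : B ⊆ F := Finset.filter_subset _ _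
  obtain ⟨g, hg, hgB⟩ : ∃ g ∈ Finset.Ico (tt σ j) (tt σ (j + 1)),
      σ * (B.filter (fun d => g ∈ Ls d)).card ≤ F.card := by
    by_contra hcon
    push Not at hcon
    have hne : (Finset.Ico (tt σ j) (tt σ (j + 1))).Nonempty := by
      rw [Finset.nonempty_Ico]
      have : 0 < σ * 4 ^ tt σ j := Nat.mul_pos hσ (pow_pos (by norm_num) _)
      simp only [tt]
      omega
    have h1 : ∑ g ∈ Finset.Ico (tt σ j) (tt σ (j + 1)), F.card <
        ∑ g ∈ Finset.Ico (tt σ j) (tt σ (j + 1)), σ * (B.filter (fun d => g ∈ Ls d)).card :=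
      Finset.sum_lt_sum_of_nonempty hne hcon
    rw [← Finset.mul_sum, Finset.sum_const, Nat.card_Ico, smul_eq_mul] at h1
    have hcard : tt σ (j + 1) - tt σ j = σ * 4 ^ tt σ j := by simp only [tt]; omega
    rw [hcard] at h1
    have h2 : ∑ g ∈ Finset.Ico (tt σ j) (tt σ (j + 1)), (B.filter (fun d => g ∈ Ls d)).card ≤
        F.card * 4 ^ tt σ j := by
      calc ∑ g ∈ Finset.Ico (tt σ j) (tt σ (j + 1)), (B.filter (fun d => g ∈ Ls d)).card
          = ∑ g ∈ Finset.Ico (tt σ j) (tt σ (j + 1)), ∑ d ∈ B, (if g ∈ Ls d then 1 else 0) := by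
            apply Finset.sum_congr rfl
            intro g _
            rw [Finset.card_filter]
        _ = ∑ d ∈ B, ∑ g ∈ Finset.Ico (tt σ j) (tt σ (j + 1)), (if g ∈ Ls d then 1 else 0) :=
            Finset.sum_comm
        _ ≤ ∑ d ∈ B, 4 ^ tt σ j := by
            apply Finset.sum_le_sum
            intro d hd
            rw [← Finset.card_filter]
            have hd' := Finset.mem_filter.mp hd
            have hmem := Nat.sInf_mem hd'.2.1
            obtain ⟨hfin, hle⟩ := hL d hd'.1 _ hmem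
            have h3 : (Finset.filter (fun g => g ∈ Ls d)
                (Finset.Ico (tt σ j) (tt σ (j + 1)))).card ≤ (Ls d).ncard := by
              rw [← Set.ncard_coe_finset]
              apply Set.ncard_le_ncard _ hfin
              intro g hg
              exact (Finset.mem_filter.mp hg).2
            refine h3.trans (hle.trans (Nat.pow_le_pow_right (by norm_num) ?_))
            omega
        _ = B.card * 4 ^ tt σ j := by rw [Finset.sum_const, smul_eq_mul]
        _ ≤ F.card * 4 ^ tt σ j := Nat.mul_le_mul_right _ (Finset.card_le_card hB)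
    have h3 := Nat.mul_le_mul_left σ h2
    have h4 : σ * (F.card * 4 ^ tt σ j) = σ * 4 ^ tt σ j * F.card := by ring
    omega
  rw [Finset.mem_Ico] at hg
  refine ⟨g, ?_, ?_, ?_⟩
  · have := tt_mono σ (Nat.zero_le j)
    have h0 : tt σ 0 = 2 := rfl
    omega
  · have := tt_mono σ (Nat.succ_le_of_lt hj)
    simp only [Nat.succ_eq_add_one] at this
    omega
  · intro F' hF' hg'
    have hsub : F' ⊆ A j ∪ B.filter (fun d => g ∈ Ls d) := by
      intro d hd
      have hdF := hF' hd
      have hgd := hg' d hd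
      have hne : (Ls d).Nonempty := ⟨g, hgd⟩
      have hle : sInf (Ls d) ≤ g := Nat.sInf_le hgd
      by_cases hlt : sInf (Ls d) < tt σ j
      · apply Finset.mem_union_right
        rw [Finset.mem_filter]
        exact ⟨Finset.mem_filter.mpr ⟨hdF, hne, hlt⟩, hgd⟩
      · apply Finset.mem_union_left
        exact Finset.mem_filter.mpr ⟨hdF, hne, not_lt.mp hlt, lt_of_le_of_lt hle hg.2⟩
    have h1 := (Finset.card_le_card hsub).trans (Finset.card_union_le _ _)
    have h2 := Nat.mul_le_mul_left σ h1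
    rw [Nat.mul_add] at h2
    omega

/-! ### the adversary -/

/-- data: current edge, current bound, recorded candidate edges -/
structure Dat (V : Type*) where
  x : V
  y : V
  K : ℕ
  h : ℕ → Option (V × V)

/-- the next recorded edge -/
def NextDat (d d' : Dat V) : Prop :=
  d'.K < d.K ∧ d.h d'.K = some (d'.x, d'.y) ∧ (∀ k', d'.K < k' → k' < d.K → d.h k' = none) ∧
    d'.h = d.h

theorem NextDat.unique {d d' d'' : Dat V} (h' : NextDat d d') (h'' : NextDat d d'') :
    d' = d'' := by
  obtain ⟨a1, a2, a3, a4⟩ := h'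
  obtain ⟨b1, b2, b3, b4⟩ := h''
  have hK : d'.K = d''.K := by
    rcases lt_trichotomy d'.K d''.K with h | h | h
    · have := a3 _ h b1
      rw [this] at b2
      cases b2
    · exact h
    · have := b3 _ h a1
      rw [this] at a2
      cases a2
  rw [hK, b2] at a2
  simp only [Option.some.injEq, Prod.mk.injEq] at a2
  rcases d' with ⟨x1, y1, K1, h1⟩
  rcases d'' with ⟨x2, y2, K2, h2⟩
  simp only at hK a2 a4 b4
  rw [hK, a4, ← b4, a2.1, a2.2]

theorem adversary [Finite V] (hG : ¬ HasCompleteMinor G 5) (σ : ℕ) (hσ : 0 < σ) (r : ℕ) :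
    ∀ F : Finset (Dat V), 2 ^ r * F.card < σ ^ r →
      ∃ τ : List ℕ, τ.length = r ∧ (∀ g ∈ τ, 2 ≤ g ∧ g < tt σ σ) ∧
        ∀ d ∈ F, ¬ Chain G d.h τ d.x d.y d.K := by
  classical
  induction r with
  | zero =>
    intro F hF
    refine ⟨[], rfl, by simp, ?_⟩
    have : F.card = 0 := by simpa using hF
    rw [Finset.card_eq_zero] at this
    simp [this]
  | succ r ih =>
    intro F hF
    let nx : Dat V → Dat V := fun d => if hd : ∃ d', NextDat d d' then hd.choose else d
    let F1 : Finset (Dat V) := F.filter (fun d => ∃ d', NextDat d d')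
    have hnx : ∀ d ∈ F1, NextDat d (nx d) := by
      intro d hd
      have hd' := (Finset.mem_filter.mp hd).2
      simp only [nx, dif_pos hd']
      exact hd'.choose_spec
    obtain ⟨g, hg2, hgt, hg⟩ := choose_gap F1 (fun d => Len G d.x d.y (nx d).x (nx d).y) σ hσ
      (fun d _ g0 hg0 => len_card hG hg0)
    let F2 : Finset (Dat V) := F1.filter (fun d => g ∈ Len G d.x d.y (nx d).x (nx d).y)
    have hF2 := hg F2 (Finset.filter_subset _ _) (fun d hd => (Finset.mem_filter.mp hd).2)
    have hcard : 2 ^ r * (F2.image nx).card < σ ^ r := by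
      have h1 : (F2.image nx).card ≤ F2.card := Finset.card_image_le
      have h2 : F1.card ≤ F.card := Finset.card_le_card (Finset.filter_subset _ _)
      have h3 : σ * (2 ^ r * (F2.image nx).card) < σ * σ ^ r := by
        calc σ * (2 ^ r * (F2.image nx).card) = 2 ^ r * (σ * (F2.image nx).card) := by ring
          _ ≤ 2 ^ r * (σ * F2.card) := by gcongr
          _ ≤ 2 ^ r * (2 * F1.card) := by gcongr
          _ ≤ 2 ^ r * (2 * F.card) := by gcongr
          _ = 2 ^ (r + 1) * F.card := by ring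
          _ < σ ^ (r + 1) := hF
          _ = σ * σ ^ r := by ring
      exact Nat.lt_of_mul_lt_mul_left h3
    obtain ⟨τ, hτ1, hτ2, hτ3⟩ := ih (F2.image nx) hcard
    refine ⟨g :: τ, by simp [hτ1], ?_, ?_⟩
    · intro a ha
      rcases List.mem_cons.mp ha with rfl | ha
      · exact ⟨hg2, hgt⟩
      · exact hτ2 a ha
    · rintro d hd ⟨k, z, w, h1, h2, h3, h4, h5⟩
      have hN : NextDat d ⟨z, w, k, d.h⟩ := ⟨h1, h2, h3, rfl⟩
      have hd1 : d ∈ F1 := Finset.mem_filter.mpr ⟨hd, _, hN⟩
      have he : nx d = ⟨z, w, k, d.h⟩ := (hnx d hd1).unique hN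
      have hd2 : d ∈ F2 := by
        refine Finset.mem_filter.mpr ⟨hd1, ?_⟩
        rw [he]
        exact h4
      have := hτ3 (nx d) (Finset.mem_image_of_mem _ hd2)
      rw [he] at this
      exact this h5

/-- all relevant data -/
theorem exists_family [Finite V] (K : ℕ) : ∃ F : Finset (Dat V),
    F.card ≤ Nat.card V ^ 3 * 5457 ^ K ∧
    ∀ (x y u : V) (h : ℕ → Option (V × V)),
      (∀ k e, h k = some e → k < K ∧ e ∈ Cand G u k) → (⟨x, y, K, h⟩ : Dat V) ∈ F := by
  classical
  have := Fintype.ofFinite V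
  let opts : V → Fin K → Finset (Option (V × V)) := fun u k =>
    insert none ((Set.toFinite (Cand G u k)).toFinset.map Function.Embedding.some)
  have hopts : ∀ u k, (opts u k).card ≤ 5457 := by
    intro u k
    calc (opts u k).card ≤ ((Set.toFinite (Cand G u k)).toFinset.map
          Function.Embedding.some).card + 1 := Finset.card_insert_le _ _
      _ = (Cand G u k).ncard + 1 := by
        rw [Finset.card_map, Set.ncard_eq_toFinset_card _ (Set.toFinite _)]
      _ ≤ 5457 := by
        have := cand_card (G := G) u (k : ℕ)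
        omega
  let ext : (Fin K → Option (V × V)) → ℕ → Option (V × V) := fun f k =>
    if hk : k < K then f ⟨k, hk⟩ else none
  let F : Finset (Dat V) := (Finset.univ : Finset (V × V × V)).biUnion (fun p =>
    (Fintype.piFinset (opts p.2.2)).image (fun f => (⟨p.1, p.2.1, K, ext f⟩ : Dat V)))
  refine ⟨F, ?_, ?_⟩
  · calc F.card ≤ ∑ p : V × V × V, ((Fintype.piFinset (opts p.2.2)).image
          (fun f => (⟨p.1, p.2.1, K, ext f⟩ : Dat V))).card := Finset.card_biUnion_le
      _ ≤ ∑ _p : V × V × V, 5457 ^ K := by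
        apply Finset.sum_le_sum
        intro p _
        refine Finset.card_image_le.trans ?_
        rw [Fintype.card_piFinset]
        calc ∏ k : Fin K, (opts p.2.2 k).card ≤ ∏ _k : Fin K, 5457 :=
              Finset.prod_le_prod' (fun k _ => hopts _ k)
          _ = 5457 ^ K := by simp
      _ = Nat.card V ^ 3 * 5457 ^ K := by
        rw [Finset.sum_const, smul_eq_mul, Finset.card_univ, Fintype.card_prod, Fintype.card_prod,
          Nat.card_eq_fintype_card]
        ring
  · intro x y u h hh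
    refine Finset.mem_biUnion.mpr ⟨(x, y, u), Finset.mem_univ _, ?_⟩
    refine Finset.mem_image.mpr ⟨fun k => h k, ?_, ?_⟩
    · rw [Fintype.mem_piFinset]
      intro k
      rcases hk : h k with _ | e
      · simp [opts]
      · simp only [opts, Finset.mem_insert, Finset.mem_map, Set.Finite.mem_toFinset]
        right
        exact ⟨e, (hh k e hk).2, rfl⟩
    · have : ext (fun k : Fin K => h k) = h := by
        funext k
        simp only [ext]
        split_ifs with hk
        · rfl
        · rcases hq : h k with _ | e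
          · rfl
          · exact absurd (hh k e hq).1 hk
      rw [this]

theorem no_pattern [Finite V] [Nonempty V] (hG : ¬ HasCompleteMinor G 5) (σ r : ℕ) (hσ : 0 < σ)
    (h : 2 ^ r * Nat.card V ^ 16 < σ ^ r) :
    ∃ τ : List ℕ, τ.length = r ∧ (∀ g ∈ τ, 2 ≤ g ∧ g < tt σ σ) ∧
      ∀ (x y : V) (S : Set V), ¬ Has G 2000 τ x y S := by
  classical
  set N := Nat.card V with hN
  have hNpos : N ≠ 0 := Nat.card_pos.ne'
  set K := Nat.log 2 N with hK
  obtain ⟨F, hF1, hF2⟩ := exists_family (G := G) K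
  have h2K : 2 ^ K ≤ N := Nat.pow_log_le_self 2 hNpos
  have hFcard : F.card ≤ N ^ 16 := by
    calc F.card ≤ N ^ 3 * 5457 ^ K := hF1
      _ ≤ N ^ 3 * (2 ^ 13) ^ K := by
        gcongr
        norm_num
      _ = N ^ 3 * (2 ^ K) ^ 13 := by rw [← pow_mul, ← pow_mul, Nat.mul_comm 13 K]
      _ ≤ N ^ 3 * N ^ 13 := by gcongr
      _ = N ^ 16 := by ring
  obtain ⟨τ, h1, h2, h3⟩ := adversary hG σ hσ r F
    (lt_of_le_of_lt (Nat.mul_le_mul_left _ hFcard) h)
  refine ⟨τ, h1, h2, ?_⟩
  intro x y S hS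
  have hnb : (nbr G (Set.univ : Set V)).ncard ≤ 4 := by
    have : nbr G (Set.univ : Set V) = ∅ := by
      ext a
      simp [nbr]
    rw [this]
    simp
  have hcard : (Set.univ : Set V).ncard < 2 ^ (K + 1) := by
    rw [Set.ncard_univ]
    exact Nat.lt_pow_succ_log_self (by norm_num) _
  obtain ⟨u, _, hh, hh1, hh2⟩ := exists_chain hG τ x y S Set.univ K hS (Set.subset_univ _)
    hnb hcard
  exact h3 _ (hF2 x y u hh hh1) hh2

/-! ### the final estimate -/

theorem size_le (L : ℕ) (τ : List ℕ) (hτ : ∀ g ∈ τ, g ≤ L) :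
    size 2000 τ + L ≤ (L + 1) * 2000 ^ τ.length := by
  induction τ with
  | nil => simp [size]; omega
  | cons g τ ih =>
    have h1 := ih (fun a ha => hτ a (List.mem_cons_of_mem _ ha))
    have h2 := hτ g List.mem_cons_self
    simp only [size, List.length_cons, pow_succ]
    have h3 := Nat.mul_le_mul_left 2000 h1
    have h4 : (L + 1) * (2000 ^ τ.length * 2000) = 2000 * ((L + 1) * 2000 ^ τ.length) := by ring
    rw [h4]
    omega

/-- the size of the pattern graphs that defeat exponent `C` -/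
theorem superpolynomial (C : ℕ) : ∃ n ≥ 2, ∀ (W : Type) [Finite W] (U : SimpleGraph W),
    ¬ HasCompleteMinor U 5 →
    (∀ H : SimpleGraph (Fin n), ¬ HasCompleteMinor H 4 → H.IsContained U) → n ^ C < Nat.card W := by
  classical
  set σ := 4 * 2000 ^ (16 * C) with hσ
  have hσpos : 0 < σ := by rw [hσ]; positivity
  set L := tt σ σ with hL
  set r := (L + 3) ^ (16 * C) with hr
  refine ⟨(L + 3) * 2000 ^ r, ?_, ?_⟩
  · have : 1 ≤ 2000 ^ r := Nat.one_le_pow _ _ (by norm_num)
    nlinarith
  intro W _ U hU huniv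
  by_contra hcon
  push Not at hcon
  -- U is nonempty
  have hn0 : 0 < (L + 3) * 2000 ^ r := by positivity
  obtain ⟨H0, hH0, x0, _⟩ := exists_graph 2000 [] (by simp) ((L + 3) * 2000 ^ r) (by
    simp only [size]
    have : 1 ≤ 2000 ^ r := Nat.one_le_pow _ _ (by norm_num)
    nlinarith)
  obtain ⟨f0⟩ := huniv H0 hH0
  have hne : Nonempty W := ⟨f0 x0⟩
  have hlt : 2 ^ r * Nat.card W ^ 16 < σ ^ r := by
    calc 2 ^ r * Nat.card W ^ 16 ≤ 2 ^ r * (((L + 3) * 2000 ^ r) ^ C) ^ 16 := by gcongr
      _ = 2 ^ r * ((L + 3) ^ (16 * C) * (2000 ^ (16 * C)) ^ r) := by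
        rw [← pow_mul, mul_pow, ← pow_mul, ← pow_mul, Nat.mul_comm C 16,
          Nat.mul_comm r (16 * C)]
      _ = 2 ^ r * (r * (2000 ^ (16 * C)) ^ r) := by rw [← hr]
      _ < 2 ^ r * (2 ^ r * (2000 ^ (16 * C)) ^ r) := by
        have h1 : r < 2 ^ r := Nat.lt_two_pow_self
        have h2 : 0 < (2000 ^ (16 * C)) ^ r := by positivity
        have h3 : 0 < 2 ^ r := by positivity
        exact Nat.mul_lt_mul_of_pos_left (Nat.mul_lt_mul_of_pos_right h1 h2) h3
      _ = σ ^ r := by
        rw [hσ, mul_pow, ← mul_assoc, ← mul_pow]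
        norm_num
  obtain ⟨τ, hτ1, hτ2, hτ3⟩ := no_pattern hU σ r hσpos hlt
  have hsize : 2 + size 2000 τ ≤ (L + 3) * 2000 ^ r := by
    have h1 := size_le L τ (fun g hg => (hτ2 g hg).2.le)
    rw [hτ1] at h1
    have h2 : 1 ≤ 2000 ^ r := Nat.one_le_pow _ _ (by norm_num)
    have h3 : (L + 3) * 2000 ^ r = (L + 1) * 2000 ^ r + 2 * 2000 ^ r := by ring
    omega
  obtain ⟨H, hH, x, y, S, _, _, _, hHas⟩ := exists_graph 2000 τ (fun g hg => (hτ2 g hg).1) _ hsize
  obtain ⟨f⟩ := huniv H hH
  exact hτ3 _ _ _ (hHas.map f f.injective (fun a b hab => f.toHom.map_adj hab))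

end Pool.Agent.H19.UG
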