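import Pool.Agent.H19.UG.Basic

/-!
Zigzags (squares of paths), the rooted pattern `Has`, and candidate edges.
-/

namespace Pool.Agent.H19.UG

variable {V : Type*}

/-- zigzag lists, latest vertex first: every vertex is adjacent to the two before it, all
vertices are distinct, and the list starts with an edge -/
inductive Zig (G : SimpleGraph V) : List V → Prop
  | base {x y : V} : G.Adj x y → Zig G [y, x]
  | step {t T P : V} {l : List V} : Zig G (T :: P :: l) → G.Adj t P → G.Adj t T →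
      t ∉ T :: P :: l → Zig G (t :: T :: P :: l)

/-- `Has G M τ x y S`: the graph `G` contains, rooted at the edge `(x, y)`, the pattern of `τ`:
for `τ = []` one common neighbour `c` of `x, y` and `S = {c}`; for `τ = g :: τ'` a zigzag with `g`
new vertices starting at `(x, y)` and ending with `(z, w)`, and `M` disjoint copies of the pattern
of `τ'` rooted at `(z, w)`. `S` is the set of all vertices used except `x, y`. -/
def Has (G : SimpleGraph V) (M : ℕ) : List ℕ → V → V → Set V → Prop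
  | [], x, y, S => ∃ c, G.Adj c x ∧ G.Adj c y ∧ S = {c}
  | g :: τ, x, y, S => ∃ (z w : V) (L : List V) (S' : Fin M → Set V),
      (w :: z :: L).length = g ∧ Zig G (w :: z :: L ++ [y, x]) ∧
      (∀ i, Has G M τ z w (S' i)) ∧ (∀ i j, i ≠ j → Disjoint (S' i) (S' j)) ∧
      (∀ i, ∀ a ∈ S' i, a ∉ w :: z :: L ++ [y, x]) ∧
      S = {a | a ∈ w :: z :: L} ∪ ⋃ i, S' i

/-- number of vertices of the pattern besides the root edge -/
def size (M : ℕ) : List ℕ → ℕ
  | [] => 1
  | g :: τ => g + M * size M τ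

/-- candidate branching edges around `u` in size class `k` -/
def Cand (G : SimpleGraph V) (u : V) (k : ℕ) : Set (V × V) :=
  {e | ∃ ρ : Set V, Conn G ρ ∧ u ∈ ρ ∧ e.1 ∈ nbr G ρ ∧ e.2 ∈ nbr G ρ ∧
     (nbr G ρ).ncard ≤ 4 ∧ ρ.ncard < 2 ^ (k + 1) ∧
     ∃ D : Fin 6 → Set V, (∀ i, Conn G (D i)) ∧ (∀ i j, i ≠ j → Disjoint (D i) (D j)) ∧
       (∀ i, e.1 ∈ nbr G (D i) ∧ e.2 ∈ nbr G (D i) ∧ 2 ^ k ≤ (D i).ncard)}

end Pool.Agent.H19.UG
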