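import Mathlib

/-! Complete graphs as minors. -/

namespace Pool.Agent.H19.UG

/-- `HasCompleteMinor G t`: the complete graph on `t` vertices is a minor of `G`, that is, there
are `t` pairwise disjoint vertex sets (branch sets), each inducing a connected (in particular
nonempty) subgraph of `G`, any two of which are joined by an edge of `G`. -/
def HasCompleteMinor {V : Type*} (G : SimpleGraph V) (t : ℕ) : Prop :=
  ∃ B : Fin t → Set V,
    (∀ i, (G.induce (B i)).Connected) ∧
    (∀ i j, i ≠ j → Disjoint (B i) (B j)) ∧
    (∀ i j, i ≠ j → ∃ x ∈ B i, ∃ y ∈ B j, G.Adj x y)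

end Pool.Agent.H19.UG
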