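import Pool.Agent.H19.UG.Defs

/-! Few zigzags between two edges in a graph without complete minor on five vertices. -/

namespace Pool.Agent.H19.UG

variable {V : Type*} {G : SimpleGraph V}

theorem Zig.nodup {Z : List V} (h : Zig G Z) : Z.Nodup := by
  induction h with
  | base h => simpa using h.ne.symm
  | step _ _ _ hn ih => exact List.nodup_cons.mpr ⟨hn, ih⟩

theorem Zig.adj_head {T P : V} {l : List V} (h : Zig G (T :: P :: l)) : G.Adj T P := by
  cases h with
  | base h => exact h.symm
  | step _ _ h _ => exact h

theorem Zig.adj_second {T P O : V} {l : List V} (h : Zig G (T :: P :: O :: l)) : G.Adj T O := by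
  cases h with
  | step _ h _ _ => exact h

theorem Zig.tail {T P O : V} {l : List V} (h : Zig G (T :: P :: O :: l)) :
    Zig G (P :: O :: l) := by
  cases h with
  | step h _ _ _ => exact h

theorem Zig.two_le {Z : List V} (h : Zig G Z) : 2 ≤ Z.length := by
  cases h with
  | base h => simp
  | step _ _ _ _ => simp

/-- dropping the latest vertices -/
theorem Zig.of_append {C W : List V} (h : Zig G (C ++ W)) (hW : 2 ≤ W.length) : Zig G W := by
  induction C with
  | nil => simpa using h
  | cons t C ih =>
    apply ih
    match C, W, h, hW with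
    | [], (a :: b :: l), h, _ => exact Zig.tail h
    | [c], (a :: b :: l), h, _ => exact Zig.tail h
    | (c :: d :: C'), W, h, _ => exact Zig.tail h

/-- keeping only the latest vertices -/
theorem Zig.take {C W : List V} (h : Zig G (C ++ W)) (hC : 2 ≤ C.length) : Zig G C := by
  induction C with
  | nil => simp at hC
  | cons t C ih =>
    match C, h, hC, ih with
    | [], _, hC, _ => simp at hC
    | [c], h, _, _ => exact Zig.base (Zig.adj_head h).symm
    | (c :: d :: C'), h, _, ih =>
      have h' : Zig G (t :: c :: d :: (C' ++ W)) := h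
      cases h' with
      | step h1 h2 h3 h4 =>
        refine Zig.step (ih h1 (by simp)) h2 h3 ?_
        intro hm
        apply h4
        simp only [List.mem_cons, List.mem_append] at hm ⊢
        tauto

theorem Zig.conn_diff {Z : List V} (h : Zig G Z) (v : V) : Conn G ({a | a ∈ Z} \ {v}) := by
  induction h with
  | @base x y hxy =>
    by_cases hx : x = v
    · have : ({a | a ∈ [y, x]} \ {v} : Set V) = {y} := by
        ext a
        simp only [Set.mem_sdiff, Set.mem_ofPred_eq, List.mem_cons, List.not_mem_nil, or_false,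
          Set.mem_singleton_iff]
        constructor
        · rintro ⟨h1 | h1, h2⟩
          · exact h1
          · exact absurd (h1.trans hx) h2
        · rintro rfl
          exact ⟨Or.inl rfl, fun e => hxy.ne (hx.trans e.symm)⟩
      rw [this]
      exact conn_singleton y
    · by_cases hy : y = v
      · have : ({a | a ∈ [y, x]} \ {v} : Set V) = {x} := by
          ext a
          simp only [Set.mem_sdiff, Set.mem_ofPred_eq, List.mem_cons, List.not_mem_nil, or_false,
            Set.mem_singleton_iff]
          constructor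
          · rintro ⟨h1 | h1, h2⟩
            · exact absurd (h1.trans hy) h2
            · exact h1
          · rintro rfl
            exact ⟨Or.inr rfl, hx⟩
        rw [this]
        exact conn_singleton x
      · have : ({a | a ∈ [y, x]} \ {v} : Set V) = {x} ∪ {y} := by
          ext a
          simp only [Set.mem_sdiff, Set.mem_ofPred_eq, List.mem_cons, List.not_mem_nil, or_false,
            Set.mem_singleton_iff, Set.mem_union]
          constructor
          · rintro ⟨h1 | h1, h2⟩
            · exact Or.inr h1
            · exact Or.inl h1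
          · rintro (rfl | rfl)
            · exact ⟨Or.inr rfl, hx⟩
            · exact ⟨Or.inl rfl, hy⟩
        rw [this]
        exact (conn_singleton x).union_adj (conn_singleton y) rfl rfl hxy
  | @step t T P l h1 h2 h3 h4 ih =>
    have hTP : T ≠ P := (Zig.adj_head h1).ne
    by_cases ht : t = v
    · have : ({a | a ∈ t :: T :: P :: l} \ {v} : Set V) = {a | a ∈ T :: P :: l} \ {v} := by
        ext a
        simp only [Set.mem_sdiff, Set.mem_ofPred_eq, Set.mem_singleton_iff]
        constructor
        · rintro ⟨h5, h6⟩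
          rcases List.mem_cons.mp h5 with h5 | h5
          · exact absurd (h5.trans ht) h6
          · exact ⟨h5, h6⟩
        · rintro ⟨h5, h6⟩
          exact ⟨List.mem_cons_of_mem _ h5, h6⟩
      rw [this]
      exact ih
    · have : ({a | a ∈ t :: T :: P :: l} \ {v} : Set V) =
          insert t ({a | a ∈ T :: P :: l} \ {v}) := by
        ext a
        simp only [Set.mem_sdiff, Set.mem_ofPred_eq, Set.mem_singleton_iff, Set.mem_insert_iff]
        constructor
        · rintro ⟨h5, h6⟩
          rcases List.mem_cons.mp h5 with h5 | h5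
          · exact Or.inl h5
          · exact Or.inr ⟨h5, h6⟩
        · rintro (rfl | ⟨h5, h6⟩)
          · exact ⟨List.mem_cons_self, ht⟩
          · exact ⟨List.mem_cons_of_mem _ h5, h6⟩
      rw [this]
      by_cases hT : T = v
      · exact ih.insert (x := P) ⟨by simp, fun e => hTP (hT.trans (Set.mem_singleton_iff.mp e).symm)⟩
          h2.symm
      · exact ih.insert (x := T) ⟨by simp, hT⟩ h3.symm

/-- lengths of completed zigzags extending `W` and ending with `(z, w)` -/
def Lset (G : SimpleGraph V) (z w : V) (W : List V) : Set ℕ :=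
  {n | ∃ C L' : List V, Zig G (C ++ W) ∧ C ++ W = w :: z :: L' ∧ (C ++ W).length = n}

/-- next vertices -/
def Nxt (G : SimpleGraph V) (z w : V) (W : List V) : Set V :=
  {t | ∃ C L' : List V, Zig G (C ++ t :: W) ∧ C ++ t :: W = w :: z :: L'}

theorem Lset_subset {z w : V} {W : List V} {n : ℕ} (h : n ∈ Lset G z w W)
    (hW : ∀ l, W ≠ w :: z :: l) : ∃ t ∈ Nxt G z w W, n ∈ Lset G z w (t :: W) := by
  obtain ⟨C, L', h1, h2, h3⟩ := h
  rcases List.eq_nil_or_concat C with rfl | ⟨C', t, rfl⟩
  · exact absurd h2 (hW L')
  · have e : C' ++ [t] ++ W = C' ++ t :: W := by simp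
    have e' : C'.concat t ++ W = C' ++ t :: W := by simp
    rw [e'] at h1 h2 h3
    exact ⟨t, ⟨C', L', h1, h2⟩, ⟨C', L', h1, h2, h3⟩⟩

/-- two different next vertices: both continuations contain `z` and `w` -/
theorem two_le_of_ne {z w t t' : V} {W : List V} {C C' L L' : List V}
    (h : Zig G (C ++ t :: W)) (e : C ++ t :: W = w :: z :: L)
    (h' : Zig G (C' ++ t' :: W)) (e' : C' ++ t' :: W = w :: z :: L') (hne : t ≠ t') :
    C ≠ [] := by
  rintro rfl
  simp only [List.nil_append, List.cons.injEq] at e
  obtain ⟨rfl, e2⟩ := e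
  rcases C' with _ | ⟨c, C''⟩
  · simp only [List.nil_append, List.cons.injEq] at e'
    exact hne e'.1.symm
  · rcases C'' with _ | ⟨c', C3⟩
    · simp only [List.cons_append, List.nil_append, List.cons.injEq] at e'
      obtain ⟨rfl, rfl, e3⟩ := e'
      have := h'.nodup
      rw [e2] at this
      simp at this
    · simp only [List.cons_append, List.cons.injEq] at e'
      obtain ⟨rfl, rfl, e3⟩ := e'
      have := h'.nodup
      rw [e2] at this
      simp only [List.cons_append, List.nodup_cons, List.mem_cons, List.mem_append] at this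
      tauto

/-- structure of one continuation -/
theorem cont_facts {z w t P T : V} {l : List V} {C L : List V}
    (h : Zig G (C ++ t :: T :: P :: l)) (e : C ++ t :: T :: P :: l = w :: z :: L) (hC : C ≠ []) :
    (∀ v, Conn G ({a | a ∈ C ++ [t]} \ {v})) ∧ z ∈ C ++ [t] ∧ w ∈ C ++ [t] ∧ t ∈ C ++ [t] ∧
      P ∉ C ++ [t] ∧ T ∉ C ++ [t] ∧ G.Adj P t ∧ G.Adj T t ∧ t ∉ T :: P :: l := by
  have hlen : 2 ≤ (C ++ [t]).length := by
    rcases C with _ | ⟨c, C'⟩
    · exact absurd rfl hC
    · simp
  have h1 : Zig G ((C ++ [t]) ++ (T :: P :: l)) := by simpa using h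
  have h2 : Zig G (C ++ [t]) := Zig.take h1 hlen
  have h3 : Zig G (t :: T :: P :: l) := Zig.of_append h (by simp)
  have hnd := h1.nodup
  have hdis := List.disjoint_of_nodup_append hnd
  refine ⟨fun v => h2.conn_diff v, ?_, ?_, by simp, ?_, ?_, (Zig.adj_second h3).symm,
    (Zig.adj_head h3).symm, ?_⟩
  · rcases C with _ | ⟨c, _ | ⟨c', C'⟩⟩
    · exact absurd rfl hC
    · simp only [List.cons_append, List.nil_append, List.cons.injEq] at e
      simp [e.2.1]
    · simp only [List.cons_append, List.cons.injEq] at e
      simp [e.2.1]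
  · rcases C with _ | ⟨c, C'⟩
    · exact absurd rfl hC
    · simp only [List.cons_append, List.cons.injEq] at e
      simp [e.1]
  · exact fun hm => hdis hm (by simp)
  · exact fun hm => hdis hm (by simp)
  · exact (List.nodup_cons.mp h3.nodup).1

theorem no_three [Finite V] (hG : ¬ HasCompleteMinor G 5) {z w P T : V} {l : List V}
    {t1 t2 t3 : V} (h1 : t1 ∈ Nxt G z w (T :: P :: l)) (h2 : t2 ∈ Nxt G z w (T :: P :: l))
    (h3 : t3 ∈ Nxt G z w (T :: P :: l)) (h12 : t1 ≠ t2) (h13 : t1 ≠ t3) (h23 : t2 ≠ t3) :
    False := by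
  obtain ⟨C1, L1, z1, e1⟩ := h1
  obtain ⟨C2, L2, z2, e2⟩ := h2
  obtain ⟨C3, L3, z3, e3⟩ := h3
  have n1 := two_le_of_ne z1 e1 z2 e2 h12
  have n2 := two_le_of_ne z2 e2 z1 e1 h12.symm
  have n3 := two_le_of_ne z3 e3 z1 e1 h13.symm
  obtain ⟨c1, zc1, wc1, tc1, P1, T1, ap1, at1, _⟩ := cont_facts z1 e1 n1
  obtain ⟨c2, zc2, wc2, tc2, P2, T2, ap2, at2, _⟩ := cont_facts z2 e2 n2
  obtain ⟨c3, zc3, wc3, tc3, P3, T3, ap3, at3, _⟩ := cont_facts z3 e3 n3
  have hPT : G.Adj P T := by
    have : Zig G (T :: P :: l) := Zig.of_append (C := C1 ++ [t1]) (by simpa using z1) (by simp)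
    exact (Zig.adj_head this).symm
  have hzw : z ≠ w := by
    have := z1.nodup
    rw [e1] at this
    simp only [List.nodup_cons, List.mem_cons, not_or] at this
    exact fun e => this.1.1 e.symm
  apply hG
  refine complete5_of_robust hPT ({a | a ∈ C1 ++ [t1]} ∪ {a | a ∈ C2 ++ [t2]} ∪
    {a | a ∈ C3 ++ [t3]}) ?_ ?_ ?_ h12 h13 h23 (Or.inl (Or.inl tc1)) (Or.inl (Or.inr tc2))
    (Or.inr tc3) ap1 ap2 ap3 at1 at2 at3
  · rintro ((h | h) | h)
    · exact P1 h
    · exact P2 h
    · exact P3 h
  · rintro ((h | h) | h)
    · exact T1 h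
    · exact T2 h
    · exact T3 h
  · intro v
    rw [Set.union_sdiff_distrib, Set.union_sdiff_distrib]
    by_cases hv : v = z
    · have hw : w ∉ ({v} : Set V) := fun e => hzw (hv.symm.trans (Set.mem_singleton_iff.mp e).symm)
      exact ((c1 v).union (c2 v) ⟨w, ⟨wc1, hw⟩, ⟨wc2, hw⟩⟩).union (c3 v)
        ⟨w, Or.inl ⟨wc1, hw⟩, ⟨wc3, hw⟩⟩
    · have hz : z ∉ ({v} : Set V) := fun e => hv (Set.mem_singleton_iff.mp e).symm
      exact ((c1 v).union (c2 v) ⟨z, ⟨zc1, hz⟩, ⟨zc2, hz⟩⟩).union (c3 v)
        ⟨z, Or.inl ⟨zc1, hz⟩, ⟨zc3, hz⟩⟩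

theorem no_two [Finite V] (hG : ¬ HasCompleteMinor G 5) {x y z w O P T : V} {l L0 : List V}
    (hZ0 : Zig G (w :: z :: L0 ++ [y, x])) (hS : [y, x] <:+ O :: l)
    (hP : P ∉ w :: z :: L0 ++ [y, x]) (hT : T ∉ w :: z :: L0 ++ [y, x])
    {t1 t2 : V} (h1 : t1 ∈ Nxt G z w (T :: P :: O :: l)) (h2 : t2 ∈ Nxt G z w (T :: P :: O :: l))
    (h12 : t1 ≠ t2) : False := by
  obtain ⟨C1, L1, z1, e1⟩ := h1
  obtain ⟨C2, L2, z2, e2⟩ := h2
  have n1 := two_le_of_ne z1 e1 z2 e2 h12
  have n2 := two_le_of_ne z2 e2 z1 e1 h12.symm
  obtain ⟨c1, zc1, wc1, tc1, P1, T1, ap1, at1, nt1⟩ := cont_facts z1 e1 n1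
  obtain ⟨c2, zc2, wc2, tc2, P2, T2, ap2, at2, nt2⟩ := cont_facts z2 e2 n2
  have hW : Zig G (T :: P :: O :: l) :=
    Zig.of_append (C := C1 ++ [t1]) (by simpa using z1) (by simp)
  have hPT : G.Adj P T := (Zig.adj_head hW).symm
  have hW2 : Zig G (P :: O :: l) := hW.tail
  have hlen : 2 ≤ (O :: l).length := by
    have := hS.length_le
    simpa using this
  have hW3 : Zig G (O :: l) := Zig.of_append (C := [P]) (by simpa using hW2) hlen
  have hxl : x ∈ O :: l := hS.subset (by simp)
  have hyl : y ∈ O :: l := hS.subset (by simp)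
  have hzw : z ≠ w := by
    have := z1.nodup
    rw [e1] at this
    simp only [List.nodup_cons, List.mem_cons, not_or] at this
    exact fun e => this.1.1 e.symm
  have hxy : x ≠ y := by
    have h : Zig G [y, x] := Zig.of_append (C := w :: z :: L0) hZ0 (by simp)
    exact (Zig.adj_head h).ne.symm
  have hn := hW.nodup
  have hn2 := hW2.nodup
  have hPl : P ∉ O :: l := (List.nodup_cons.mp hn2).1
  have hTl : T ∉ O :: l := fun h => (List.nodup_cons.mp hn).1 (List.mem_cons_of_mem _ h)
  have hO1 : t1 ≠ O := fun e => nt1 (by simp [e])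
  have hO2 : t2 ≠ O := fun e => nt2 (by simp [e])
  apply hG
  refine complete5_of_robust hPT ({a | a ∈ C1 ++ [t1]} ∪ {a | a ∈ C2 ++ [t2]} ∪
    {a | a ∈ w :: z :: L0 ++ [y, x]} ∪ {a | a ∈ O :: l}) ?_ ?_ ?_ (t1 := t1) (t2 := t2) (t3 := O)
    h12 hO1 hO2 (Or.inl (Or.inl (Or.inl tc1))) (Or.inl (Or.inl (Or.inr tc2)))
    (Or.inr (by simp)) ap1 ap2 (Zig.adj_head hW2) at1 at2 (Zig.adj_second hW)
  · rintro (((h | h) | h) | h)
    · exact P1 h
    · exact P2 h
    · exact hP h
    · exact hPl h
  · rintro (((h | h) | h) | h)
    · exact T1 h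
    · exact T2 h
    · exact hT h
    · exact hTl h
  · intro v
    rw [Set.union_sdiff_distrib, Set.union_sdiff_distrib, Set.union_sdiff_distrib]
    have hS0 := hZ0.conn_diff v
    have hl0 := hW3.conn_diff v
    have first : Conn G ({a | a ∈ C1 ++ [t1]} \ {v} ∪ {a | a ∈ C2 ++ [t2]} \ {v} ∪
        {a | a ∈ w :: z :: L0 ++ [y, x]} \ {v}) := by
      by_cases hv : v = z
      · have hw : w ∉ ({v} : Set V) :=
          fun e => hzw (hv.symm.trans (Set.mem_singleton_iff.mp e).symm)
        exact ((c1 v).union (c2 v) ⟨w, ⟨wc1, hw⟩, ⟨wc2, hw⟩⟩).union hS0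
          ⟨w, Or.inl ⟨wc1, hw⟩, ⟨by simp, hw⟩⟩
      · have hz : z ∉ ({v} : Set V) := fun e => hv (Set.mem_singleton_iff.mp e).symm
        exact ((c1 v).union (c2 v) ⟨z, ⟨zc1, hz⟩, ⟨zc2, hz⟩⟩).union hS0
          ⟨z, Or.inl ⟨zc1, hz⟩, ⟨by simp, hz⟩⟩
    by_cases hv : v = x
    · have hy : y ∉ ({v} : Set V) :=
        fun e => hxy (hv.symm.trans (Set.mem_singleton_iff.mp e).symm)
      exact first.union hl0 ⟨y, Or.inr ⟨by simp, hy⟩, ⟨hyl, hy⟩⟩
    · have hx : x ∉ ({v} : Set V) := fun e => hv (Set.mem_singleton_iff.mp e).symm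
      exact first.union hl0 ⟨x, Or.inr ⟨by simp, hx⟩, ⟨hxl, hx⟩⟩

open Classical in
/-- the potential -/
noncomputable def pot (S : Set V) : List V → ℕ
  | (T :: P :: l) => 2 * (S \ {a | a ∈ T :: P :: l}).ncard +
      (if T ∈ S then 2 else if P ∈ S then 1 else 0)
  | _ => 0

theorem pot_one {S : Set V} {T P : V} {l : List V} (h : T ∈ S) :
    pot S (T :: P :: l) = 2 * (S \ {a | a ∈ T :: P :: l}).ncard + 2 := by
  simp only [pot, if_pos h]

theorem pot_two {S : Set V} {T P : V} {l : List V} (h : T ∉ S) (h' : P ∈ S) :
    pot S (T :: P :: l) = 2 * (S \ {a | a ∈ T :: P :: l}).ncard + 1 := by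
  simp only [pot, if_neg h, if_pos h']

theorem pot_three {S : Set V} {T P : V} {l : List V} (h : T ∉ S) (h' : P ∉ S) :
    pot S (T :: P :: l) = 2 * (S \ {a | a ∈ T :: P :: l}).ncard := by
  simp only [pot, if_neg h, if_neg h', add_zero]

theorem Lset_finite [Finite V] {z w : V} {W : List V} : (Lset G z w W).Finite := by
  apply (Set.finite_Iic (Nat.card V)).subset
  rintro n ⟨C, L', h1, _, rfl⟩
  classical
  have := Fintype.ofFinite V
  rw [Set.mem_Iic, Nat.card_eq_fintype_card]
  exact h1.nodup.length_le_card

theorem Lset_card [Finite V] (hG : ¬ HasCompleteMinor G 5) {x y z w : V} {L0 : List V}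
    (hZ0 : Zig G (w :: z :: L0 ++ [y, x])) (m : ℕ) :
    ∀ (T P : V) (l : List V), Zig G (T :: P :: l) → [y, x] <:+ T :: P :: l →
      Nat.card V < (T :: P :: l).length + m →
      (Lset G z w (T :: P :: l)).ncard ≤ 2 ^ pot {a | a ∈ w :: z :: L0 ++ [y, x]} (T :: P :: l) := by
  classical
  set S : Set V := {a | a ∈ w :: z :: L0 ++ [y, x]} with hS
  induction m with
  | zero =>
    intro T P l hW _ hlt
    exfalso
    have := Fintype.ofFinite V
    rw [Nat.card_eq_fintype_card] at hlt
    have := hW.nodup.length_le_card
    omega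
  | succ m ih =>
    intro T P l hW hsuf hlt
    by_cases hcomp : ∃ l', T :: P :: l = w :: z :: l'
    · -- complete
      have hsub : Lset G z w (T :: P :: l) ⊆ {(T :: P :: l).length} := by
        rintro n ⟨C, L', h1, h2, rfl⟩
        obtain ⟨l', hl'⟩ := hcomp
        rcases C with _ | ⟨c, C'⟩
        · simp
        · exfalso
          have hn := h1.nodup
          simp only [List.cons_append, List.cons.injEq] at h2 hl'
          rw [List.cons_append, List.nodup_cons, h2.1, ← hl'.1] at hn
          exact hn.1 (by simp)
      calc (Lset G z w (T :: P :: l)).ncard ≤ ({(T :: P :: l).length} : Set ℕ).ncard :=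
            Set.ncard_le_ncard hsub (Set.finite_singleton _)
        _ = 1 := Set.ncard_singleton _
        _ ≤ _ := Nat.one_le_two_pow
    · have hcomp' : ∀ l', T :: P :: l ≠ w :: z :: l' := fun l' e => hcomp ⟨l', e⟩
      -- bound for one next vertex
      have hstep : ∀ t ∈ Nxt G z w (T :: P :: l),
          (Lset G z w (t :: T :: P :: l)).ncard ≤ 2 ^ pot S (t :: T :: P :: l) ∧
          t ∉ T :: P :: l := by
        rintro t ⟨C, L', h1, _⟩
        have hz : Zig G (t :: T :: P :: l) := Zig.of_append h1 (by simp)
        refine ⟨ih t T (P :: l) hz ?_ ?_, (List.nodup_cons.mp hz.nodup).1⟩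
        · exact hsuf.trans (List.suffix_cons _ _)
        · simp only [List.length_cons] at hlt ⊢
          omega
      -- potentials
      have hcard : ∀ t, t ∉ T :: P :: l → t ∈ S →
          (S \ {a | a ∈ t :: T :: P :: l}).ncard + 1 = (S \ {a | a ∈ T :: P :: l}).ncard := by
        intro t ht htS
        have e : S \ {a | a ∈ t :: T :: P :: l} = (S \ {a | a ∈ T :: P :: l}) \ {t} := by
          ext a
          simp only [Set.mem_sdiff, Set.mem_ofPred_eq, Set.mem_singleton_iff, List.mem_cons]
          tauto
        rw [e]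
        exact Set.ncard_sdiff_singleton_add_one ⟨htS, ht⟩ (Set.toFinite _)
      have hcard' : ∀ t, t ∉ S →
          (S \ {a | a ∈ t :: T :: P :: l}).ncard = (S \ {a | a ∈ T :: P :: l}).ncard := by
        intro t htS
        congr 1
        ext a
        simp only [Set.mem_sdiff, Set.mem_ofPred_eq, List.mem_cons]
        constructor
        · tauto
        · rintro ⟨h1, h2⟩
          refine ⟨h1, ?_⟩
          rintro (rfl | h3)
          · exact htS h1
          · exact h2 (by simpa using h3)
      by_cases hc : T ∉ S ∧ P ∉ S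
      · -- one next vertex
        obtain ⟨hTS, hPS⟩ := hc
        -- l is not empty
        have hl : ∃ O l', l = O :: l' ∧ [y, x] <:+ O :: l' := by
          obtain ⟨C, hC⟩ := hsuf
          match C, hC with
          | [], hC =>
            exfalso
            simp only [List.nil_append, List.cons.injEq] at hC
            apply hTS
            rw [← hC.1, hS]
            simp
          | [c], hC =>
            exfalso
            simp only [List.cons_append, List.nil_append, List.cons.injEq] at hC
            apply hPS
            rw [← hC.2.1, hS]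
            simp
          | (c :: c' :: C'), hC =>
            simp only [List.cons_append, List.cons.injEq] at hC
            obtain ⟨_, _, hC⟩ := hC
            rcases l with _ | ⟨O, l'⟩
            · simp at hC
            · exact ⟨O, l', rfl, ⟨C', hC⟩⟩
        obtain ⟨O, l', rfl, hO⟩ := hl
        rcases (Nxt G z w (T :: P :: O :: l')).eq_empty_or_nonempty with he | ⟨t, ht⟩
        · have : Lset G z w (T :: P :: O :: l') = ∅ := by
            rw [Set.eq_empty_iff_forall_notMem]
            intro n hn
            obtain ⟨t, ht, _⟩ := Lset_subset hn hcomp'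
            rw [he] at ht
            exact ht
          rw [this]
          simp
        · have hsub : Lset G z w (T :: P :: O :: l') ⊆ Lset G z w (t :: T :: P :: O :: l') := by
            intro n hn
            obtain ⟨t', ht', hn'⟩ := Lset_subset hn hcomp'
            have : t' = t := by
              by_contra hne
              exact no_two hG hZ0 hO hPS hTS ht' ht hne
            rwa [this] at hn'
          obtain ⟨hb, htn⟩ := hstep t ht
          calc _ ≤ (Lset G z w (t :: T :: P :: O :: l')).ncard :=
                Set.ncard_le_ncard hsub Lset_finite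
            _ ≤ 2 ^ pot S (t :: T :: P :: O :: l') := hb
            _ ≤ _ := by
              apply Nat.pow_le_pow_right (by norm_num)
              rw [pot_three hTS hPS]
              by_cases htS : t ∈ S
              · have := hcard t htn htS
                rw [pot_one htS]
                omega
              · have := hcard' t htS
                rw [pot_three htS hTS]
                omega
      · -- at most two next vertices
        have hle : ∀ t ∈ Nxt G z w (T :: P :: l),
            pot S (t :: T :: P :: l) + 1 ≤ pot S (T :: P :: l) := by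
          intro t ht
          obtain ⟨_, htn⟩ := hstep t ht
          by_cases htS : t ∈ S
          · have := hcard t htn htS
            rw [pot_one htS]
            by_cases hTS : T ∈ S
            · rw [pot_one hTS]; omega
            · have hPS : P ∈ S := by
                by_contra hPS
                exact hc ⟨hTS, hPS⟩
              rw [pot_two hTS hPS]
              omega
          · have := hcard' t htS
            by_cases hTS : T ∈ S
            · rw [pot_two htS hTS, pot_one hTS]; omega
            · have hPS : P ∈ S := by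
                by_contra hPS
                exact hc ⟨hTS, hPS⟩
              rw [pot_three htS hTS, pot_two hTS hPS]
              omega
        rcases (Nxt G z w (T :: P :: l)).eq_empty_or_nonempty with he | ⟨t, ht⟩
        · have : Lset G z w (T :: P :: l) = ∅ := by
            rw [Set.eq_empty_iff_forall_notMem]
            intro n hn
            obtain ⟨t, ht, _⟩ := Lset_subset hn hcomp'
            rw [he] at ht
            exact ht
          rw [this]
          simp
        · have hbt := (hstep t ht).1
          have hlt' := hle t ht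
          by_cases hex : ∃ t' ∈ Nxt G z w (T :: P :: l), t' ≠ t
          · obtain ⟨t', ht', hne⟩ := hex
            have hsub : Lset G z w (T :: P :: l) ⊆
                Lset G z w (t :: T :: P :: l) ∪ Lset G z w (t' :: T :: P :: l) := by
              intro n hn
              obtain ⟨t'', ht'', hn'⟩ := Lset_subset hn hcomp'
              by_cases h1 : t'' = t
              · left; rwa [h1] at hn'
              · by_cases h2 : t'' = t'
                · right; rwa [h2] at hn'
                · exact (no_three hG ht'' ht ht' h1 h2 hne.symm).elim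
            have hbt' := (hstep t' ht').1
            have hlt'' := hle t' ht'
            calc _ ≤ (Lset G z w (t :: T :: P :: l) ∪ Lset G z w (t' :: T :: P :: l)).ncard :=
                  Set.ncard_le_ncard hsub (Lset_finite.union Lset_finite)
              _ ≤ (Lset G z w (t :: T :: P :: l)).ncard +
                  (Lset G z w (t' :: T :: P :: l)).ncard := Set.ncard_union_le _ _
              _ ≤ 2 ^ (pot S (T :: P :: l) - 1) + 2 ^ (pot S (T :: P :: l) - 1) := by
                apply Nat.add_le_add
                · exact hbt.trans (Nat.pow_le_pow_right (by norm_num) (by omega))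
                · exact hbt'.trans (Nat.pow_le_pow_right (by norm_num) (by omega))
              _ = 2 ^ pot S (T :: P :: l) := by
                rw [← two_mul, ← pow_succ']
                congr 1
                omega
          · push Not at hex
            have hsub : Lset G z w (T :: P :: l) ⊆ Lset G z w (t :: T :: P :: l) := by
              intro n hn
              obtain ⟨t'', ht'', hn'⟩ := Lset_subset hn hcomp'
              rwa [hex t'' ht''] at hn'
            calc _ ≤ (Lset G z w (t :: T :: P :: l)).ncard :=
                  Set.ncard_le_ncard hsub Lset_finite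
              _ ≤ 2 ^ pot S (t :: T :: P :: l) := hbt
              _ ≤ _ := Nat.pow_le_pow_right (by norm_num) (by omega)

/-- gaps of zigzags from `(x, y)` to `(z, w)` -/
def Len (G : SimpleGraph V) (x y z w : V) : Set ℕ :=
  {g | ∃ L : List V, (w :: z :: L).length = g ∧ Zig G (w :: z :: L ++ [y, x])}

theorem len_card [Finite V] (hG : ¬ HasCompleteMinor G 5) {x y z w : V} {g0 : ℕ}
    (h : g0 ∈ Len G x y z w) :
    (Len G x y z w).Finite ∧ (Len G x y z w).ncard ≤ 4 ^ (g0 + 1) := by
  classical
  obtain ⟨L0, hg0, hZ0⟩ := h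
  have himg : (fun g => g + 2) '' (Len G x y z w) ⊆ Lset G z w [y, x] := by
    rintro _ ⟨g, ⟨L, rfl, hL⟩, rfl⟩
    exact ⟨w :: z :: L, L ++ [y, x], hL, by simp, by simp⟩
  have hinj : Function.Injective (fun g : ℕ => g + 2) := fun a b h => by simpa using h
  have hxy : Zig G [y, x] := Zig.of_append (C := w :: z :: L0) hZ0 (by simp)
  refine ⟨Set.Finite.of_finite_image (Lset_finite.subset himg) hinj.injOn, ?_⟩
  calc (Len G x y z w).ncard = ((fun g => g + 2) '' (Len G x y z w)).ncard :=
        (Set.ncard_image_of_injective _ hinj).symm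
    _ ≤ (Lset G z w [y, x]).ncard := Set.ncard_le_ncard himg Lset_finite
    _ ≤ 2 ^ pot {a | a ∈ w :: z :: L0 ++ [y, x]} [y, x] :=
        Lset_card hG hZ0 (Nat.card V) y x [] hxy (List.suffix_refl _) (by simp)
    _ = 4 ^ (g0 + 1) := by
      have e : pot {a | a ∈ w :: z :: L0 ++ [y, x]} [y, x] = 2 * (g0 + 1) := by
        rw [pot_one (by simp)]
        have hnd := hZ0.nodup
        have e1 : ({a | a ∈ w :: z :: L0 ++ [y, x]} \ {a | a ∈ [y, x]} : Set V) =
            {a | a ∈ w :: z :: L0} := by
          have hdis := List.disjoint_of_nodup_append hnd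
          ext a
          simp only [Set.mem_sdiff, Set.mem_ofPred_eq]
          constructor
          · rintro ⟨h1, h2⟩
            rcases List.mem_append.mp h1 with h1 | h1
            · exact h1
            · exact absurd h1 h2
          · intro h1
            exact ⟨List.mem_append_left _ h1, fun h2 => hdis h1 h2⟩
        rw [e1]
        have hnd' : (w :: z :: L0).Nodup := (List.nodup_append.mp hnd).1
        have e2 : ({a | a ∈ w :: z :: L0} : Set V) = ((w :: z :: L0).toFinset : Set V) := by
          ext a; simp
        rw [e2, Set.ncard_coe_finset, List.toFinset_card_of_nodup hnd', hg0]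
        ring
      rw [e, pow_mul]
      norm_num

end Pool.Agent.H19.UG
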